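import Pool.Agent.Lib.MP_ecd12e_nt.SR.Prod
import Pool.Agent.Lib.MP_ecd12e_nt.Sch.Frac

/-!
The double zeta sum over a set of smooth numbers, by a bootstrap.
-/

set_option autoImplicit false

namespace Pool.Agent.Lib.MP_ecd12e_nt.SR

open Finset Real
open Pool.Agent.Lib.MP_ecd12e_nt.Bar (ei)
open Pool.Agent.Lib.MP_ecd12e_nt.Sch Pool.Agent.Lib.MP_ecd12e_nt.DH

/-- One dyadic block. -/
theorem boot_blk {T P H Y g z G F : ℝ} {y k D J0 : ℕ} {W : Finset ℤ}
    (h : Par T P H Y g z W.card y k D J0) (hW : InR W H) (hG : 1 ≤ G) (hok : Ok W y T Y G)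
    (hF : F = 112 * z * (J0 + 2) * (2 * P) ^ (4 * J0 + 4) * G ^ (1 - 1 / (D : ℝ)))
    {L L' : ℝ} (hL' : 0 < L') (hL : L' ≤ L) (hLT : L ≤ T ^ 2) {J : Finset ℕ} (hJ : InI J L' 2)
    (hs : ∀ n ∈ J, Smo y n) : ds W J ≤ F * (W.card * (Y + L)) * (P * L') := by
  have hP := h.loss.one_le
  have hT := h.loss.hT
  have hR := h.hR
  have hz := h.hz
  have hH := h.hH
  have hY : 1 ≤ Y := hR.trans h.hRY
  have hD : (1 : ℝ) ≤ D := by exact_mod_cast h.hD
  obtain ⟨θ, hθ⟩ : ∃ θ, θ = 1 - 1 / (D : ℝ) := ⟨_, rfl⟩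
  have hθ0 : 0 ≤ θ := hθ ▸ sub_nonneg.2 ((div_le_one (by linarith)).2 hD)
  have hθ1 : θ ≤ 1 := hθ ▸ sub_le_self _ (by positivity)
  have hGθ : 1 ≤ G ^ θ := Real.one_le_rpow hG hθ0
  have hJ4 := hJ.mono hL'.le (show (2 : ℝ) ≤ 4 by norm_num)
  have hB : ∀ n ∈ J, 1 ≤ n ∧ n ≤ ⌊4 * L'⌋₊ := fun n hn => by
    have h3 : (0 : ℝ) < n := hL'.trans_le (hJ n hn).1
    exact ⟨by exact_mod_cast h3, Nat.le_floor (hJ4 n hn).2⟩
  rw [← hθ] at hF
  have hE1 : 1 ≤ (4 * P ^ 2) ^ (J0 + 1) := one_le_pow₀ (by nlinarith)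
  have hE2 : (2 * P) ^ (4 * J0 + 4) = (4 * P ^ 2) ^ (J0 + 1) * (4 * P ^ 2) ^ (J0 + 1) := by
    rw [show 4 * P ^ 2 = (2 * P) ^ 2 by ring, ← pow_mul, ← pow_add]
    congr 1
    ring
  have hE3 : (P ^ (J0 + 1)) ^ 2 ≤ (4 * P ^ 2) ^ (J0 + 1) := by
    rw [← pow_mul, mul_comm (J0 + 1), pow_mul]
    exact pow_le_pow_left₀ (sq_nonneg P) (by nlinarith) _
  have hE4 : P ≤ (2 * P) ^ (4 * J0 + 4) :=
    (show P ≤ 2 * P by linarith).trans (le_self_pow₀ (by linarith) (by omega))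
  have hJ0 : (0 : ℝ) ≤ J0 := Nat.cast_nonneg _
  have hF1 : 112 * P ≤ F := by
    rw [hF]
    calc 112 * P = 112 * 1 * 1 * P * 1 := by ring
      _ ≤ _ := by gcongr <;> linarith
  have hL0 : 0 < L := hL'.trans_le hL
  rw [ds, frac_split hB (fun x => ‖rr W x‖ ^ 2)]
  have key : ∀ d ∈ Icc 1 ⌊4 * L'⌋₊, ∑ p ∈ cop J d, ‖rr W (lg p)‖ ^ 2 ≤
      F * (W.card * (Y + L)) * (L' / d) := by
    intro d hd
    have hd1 := (mem_Icc.1 hd).1
    have hd' : (1 : ℝ) ≤ d := by exact_mod_cast hd1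
    have hx : 0 < L' / d := by positivity
    have hxL : L' / d ≤ L := (div_le_self hL'.le hd').trans hL
    rcases le_or_gt (H / Y) (L' / d) with h1 | h1
    · have h2 := cop_sieve h.loss hL' (hL.trans hLT) hJ4 hd1 hH hW (fun _ => 1)
      simp only [← rr_eq, norm_one, one_pow, sum_const, nsmul_eq_mul, mul_one] at h2
      rw [div_le_iff₀ (by linarith)] at h1
      have h3 : H + (L' / d) ^ 2 ≤ (Y + L) * (L' / d) := by nlinarith
      calc _ ≤ _ := h2
        _ ≤ F * ((Y + L) * (L' / d)) * W.card := by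
          have e0 : 0 ≤ F := by linarith
          gcongr
        _ = _ := by ring
    · have h2 := prod_bd h hG hok rfl hx (by rw [mul_div_assoc 2 H]; linarith) (hJ.dv hd1)
        fun a ha => (hs _ ((mem_dv hd1).1 ha)).of_dvd (Dvd.intro_left _ rfl)
      have h4 : ∑ p ∈ cop J d, ‖rr W (lg p)‖ ^ 2 ≤ ds W (dv J d) := by
        rw [ds, ← sum_product']
        exact sum_le_sum_of_subset_of_nonneg (filter_subset _ _) fun _ _ _ => sq_nonneg _
      have h5 : (2 * (4 * P ^ 2) ^ (J0 + 1) * G) ^ θ ≤ 2 * (4 * P ^ 2) ^ (J0 + 1) * G ^ θ := by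
        rw [Real.mul_rpow (by positivity) (by linarith)]
        refine mul_le_mul_of_nonneg_right ?_ (by linarith)
        exact (Real.rpow_le_rpow_of_exponent_le (by linarith) hθ1).trans_eq (Real.rpow_one _)
      rw [← hθ] at h2
      calc _ ≤ _ := h4.trans h2
        _ ≤ (4 * P ^ 2) ^ (J0 + 1) * (2 * (L' / d) * z * ((J0 + 2) *
            (2 * (2 * (4 * P ^ 2) ^ (J0 + 1) * G ^ θ) * W.card * (Y + L)))) := by
          gcongr
          linarith
        _ = 8 * z * (J0 + 2) * (2 * P) ^ (4 * J0 + 4) * G ^ θ * (W.card * (Y + L)) *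
            (L' / d) := by rw [hE2]; ring
        _ ≤ _ := by
          rw [hF]
          gcongr
          norm_num
  refine (sum_le_sum key).trans ?_
  rw [← mul_sum]
  refine mul_le_mul_of_nonneg_left (sum_div_le h.loss hL'.le ?_)
    (mul_nonneg (by linarith) (by positivity))
  have h4 : T ^ 2 ≤ T ^ 4 := pow_le_pow_right₀ hT (by norm_num)
  have := Nat.floor_le (show 0 ≤ 4 * L' by positivity)
  nlinarith [sq_nonneg T]

theorem boot_step {T P H Y g z G : ℝ} {y k D J0 : ℕ} {W : Finset ℤ}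
    (h : Par T P H Y g z W.card y k D J0) (hW : InR W H) (hG : 1 ≤ G) (hok : Ok W y T Y G) :
    Ok W y T Y (112 * z * (J0 + 2) * (2 * P) ^ (4 * J0 + 7) * G ^ (1 - 1 / (D : ℝ))) := by
  intro L J hL hLT hJ
  have hP := h.loss.one_le
  have hz := h.hz
  have hY : 1 ≤ Y := h.hR.trans h.hRY
  obtain ⟨F, hF⟩ : ∃ F, F = 112 * z * (J0 + 2) * (2 * P) ^ (4 * J0 + 4) * G ^ (1 - 1 / (D : ℝ)) :=
    ⟨_, rfl⟩
  have hF0 : 0 ≤ F * (W.card * (Y + L)) * (P * L) := by
    rw [hF]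
    positivity
  have h1 := tup_split W J (range (Nat.log 2 ⌊L⌋₊ + 1)) (fun n => Nat.log 2 n) fun n hn =>
    mem_range.2 (Nat.lt_succ_of_le (Nat.log_mono_right (Nat.le_floor (hJ n hn).2.1)))
  have h2 := log_le h.loss ((Nat.floor_le hL.le).trans hLT)
  have h3 := sum_le_card_nsmul (range (Nat.log 2 ⌊L⌋₊ + 1))
    (fun l => ds W (J.filter fun n => Nat.log 2 n = l)) (F * (W.card * (Y + L)) * (P * L))
    fun l _ => by
      rcases (J.filter fun n => Nat.log 2 n = l).eq_empty_or_nonempty with e | ⟨n0, hn0⟩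
      · simp only [e, ds, sum_empty]
        exact hF0
      have e1 : InI (J.filter fun n => Nat.log 2 n = l) (2 ^ l) 2 := fun n hn => by
        obtain ⟨a1, rfl⟩ := mem_filter.1 hn
        have a2 := Nat.pow_log_le_self 2 (Nat.one_le_iff_ne_zero.1 (hJ n a1).1)
        have a3 := (Nat.lt_pow_succ_log_self one_lt_two n).le
        rw [pow_succ'] at a3
        exact ⟨by exact_mod_cast a2, by exact_mod_cast a3⟩
      have e2 : (2 : ℝ) ^ l ≤ L := (e1 n0 hn0).1.trans (hJ n0 (mem_filter.1 hn0).1).2.1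
      refine (boot_blk h hW hG hok hF (by positivity) e2 hLT e1
        fun n hn => (hJ n (mem_filter.1 hn).1).2.2).trans ?_
      have e3 : 0 ≤ F := by rw [hF]; positivity
      gcongr
  rw [card_range, nsmul_eq_mul] at h3
  rw [card_range] at h1
  calc ds W J ≤ _ := h1
    _ ≤ P * (P * (F * (W.card * (Y + L)) * (P * L))) :=
        mul_le_mul h2 (h3.trans (mul_le_mul_of_nonneg_right h2 hF0))
          (sum_nonneg fun _ _ => ds_nonneg _ _) (by linarith)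
    _ = F * P ^ 3 * L * (W.card * (Y + L)) := by ring
    _ ≤ F * (2 * P) ^ 3 * L * (W.card * (Y + L)) := by
        have e3 : 0 ≤ F := by rw [hF]; positivity
        gcongr
        linarith
    _ = _ := by rw [hF]; ring

/-- The double zeta sum over smooth numbers. -/
theorem boot {T P H Y g z : ℝ} {y k D J0 : ℕ} {W : Finset ℤ}
    (h : Par T P H Y g z W.card y k D J0) (hW : InR W H) :
    Ok W y T Y ((112 * z * (J0 + 2) * (2 * P) ^ (4 * J0 + 7)) ^ D) := by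
  have hP := h.loss.one_le
  have hT := h.loss.hT
  have hR := h.hR
  have hz := h.hz
  have hY : 1 ≤ Y := hR.trans h.hRY
  have hD : (1 : ℝ) ≤ D := by exact_mod_cast h.hD
  obtain ⟨E, hE⟩ : ∃ E, E = 112 * z * (J0 + 2) * (2 * P) ^ (4 * J0 + 7) := ⟨_, rfl⟩
  rw [← hE]
  obtain ⟨S, hS⟩ : ∃ S : Set ℝ, ∀ G, G ∈ S ↔ 1 ≤ G ∧ Ok W y T Y G := ⟨_, fun _ => Iff.rfl⟩
  have hne : S.Nonempty := ⟨T ^ 2, (hS _).2 ⟨one_le_pow₀ hT, fun L J hL hLT hJ => by
    have h1 : (J.card : ℝ) ≤ L := by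
      have e1 : J ⊆ Icc 1 ⌊L⌋₊ := fun n hn => mem_Icc.2 ⟨(hJ n hn).1, Nat.le_floor (hJ n hn).2.1⟩
      have e2 := card_le_card e1
      rw [Nat.card_Icc, Nat.add_sub_cancel] at e2
      exact le_trans (by exact_mod_cast e2) (Nat.floor_le hL.le)
    calc _ ≤ ∑ _n ∈ J, ∑ _n' ∈ J, (W.card : ℝ) ^ 2 := sum_le_sum fun _ _ => sum_le_sum fun _ _ =>
          pow_le_pow_left₀ (norm_nonneg _) (norm_rr_le _ _) 2
      _ = J.card * J.card * (W.card * (W.card : ℝ)) := by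
          simp only [sum_const, nsmul_eq_mul]
          ring
      _ ≤ _ := by
          gcongr
          · exact h1.trans hLT
          · linarith [h.hRY]⟩⟩
  have h0 : 1 ≤ sInf S := le_csInf hne fun G hG => ((hS G).1 hG).1
  have h1 : Ok W y T Y (sInf S) := fun L J hL hLT hJ => by
    have e : 0 < L * (W.card * (Y + L)) := by positivity
    rw [mul_assoc]
    exact (div_le_iff₀ e).1 (le_csInf hne fun G hG => (div_le_iff₀ e).2
      ((((hS G).1 hG).2 L J hL hLT hJ).trans_eq (mul_assoc _ _ _)))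
  have hE1 : 1 ≤ E := by
    have e1 : 1 ≤ (2 * P) ^ (4 * J0 + 7) := one_le_pow₀ (by linarith)
    have e2 : (0 : ℝ) ≤ J0 := Nat.cast_nonneg _
    rw [hE]
    calc (1 : ℝ) = 1 * 1 * 1 * 1 := by ring
      _ ≤ _ := by gcongr <;> linarith
  have h2 : sInf S ≤ E * sInf S ^ (1 - 1 / (D : ℝ)) :=
    csInf_le ⟨1, fun G hG => ((hS G).1 hG).1⟩ ((hS _).2 ⟨one_le_mul_of_one_le_of_one_le hE1
      (Real.one_le_rpow h0 (sub_nonneg.2 ((div_le_one (by linarith)).2 hD))),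
      hE ▸ boot_step h hW h0 h1⟩)
  have h3 : sInf S ≤ E ^ D := by
    have e0 : 0 < sInf S := by linarith
    have e1 : 0 < sInf S ^ (1 / (D : ℝ)) := Real.rpow_pos_of_pos e0 _
    rw [Real.rpow_sub e0, Real.rpow_one, ← mul_div_assoc, le_div_iff₀ e1, mul_comm E] at h2
    have e2 := pow_le_pow_left₀ e1.le (le_of_mul_le_mul_left h2 e0) D
    rwa [← Real.rpow_natCast, ← Real.rpow_mul e0.le, one_div, inv_mul_cancel₀ (by linarith),
      Real.rpow_one] at e2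
  intro L J hL hLT hJ
  refine (h1 L J hL hLT hJ).trans ?_
  gcongr

end Pool.Agent.Lib.MP_ecd12e_nt.SR
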