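import Pool.Agent.Lib.MP_ecd12e_nt.SR.Low

/-!
The core estimate.
-/

set_option autoImplicit false

namespace Pool.Agent.Lib.MP_ecd12e_nt.SR

open Finset Real
open Pool.Agent.Lib.MP_ecd12e_nt.Bar (ei)
open Pool.Agent.Lib.MP_ecd12e_nt.Sch Pool.Agent.Lib.MP_ecd12e_nt.DH

lemma param (k c : ℕ) {η : ℝ} (hη : 0 < η) : ∃ (D : ℕ) (a : ℝ), 2 * k + 5 ≤ D ∧ 0 < a ∧
    ∀ N : ℝ, 1 ≤ N → ((N ^ a) ^ D ^ 3) ^ D = N ∧ ((N ^ a) ^ D ^ 3) ^ c ≤ N ^ η ∧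
      (N ^ (k + 3)) ^ (a / (k + 3)) = N ^ a := by
  obtain ⟨D0, hD0⟩ := exists_nat_ge (c / η)
  rw [div_le_iff₀ hη] at hD0
  obtain ⟨D, hD⟩ : ∃ D : ℕ, D = D0 + (2 * k + 5) := ⟨_, rfl⟩
  have h1 : (0 : ℝ) < D := by exact_mod_cast (show 0 < D by omega)
  have h2 : (D0 : ℝ) ≤ D := by exact_mod_cast (show D0 ≤ D by omega)
  refine ⟨D, 1 / (D : ℝ) ^ 4, by omega, by positivity, fun N hN => ⟨?_, ?_, ?_⟩⟩
  · rw [← pow_mul, ← Real.rpow_natCast, ← Real.rpow_mul (by linarith)]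
    push_cast
    rw [show 1 / (D : ℝ) ^ 4 * (D ^ 3 * D) = 1 by field_simp, Real.rpow_one]
  · rw [← pow_mul, ← Real.rpow_natCast, ← Real.rpow_mul (by linarith)]
    refine Real.rpow_le_rpow_of_exponent_le hN ?_
    push_cast
    rw [show 1 / (D : ℝ) ^ 4 * (D ^ 3 * c) = c / D by field_simp, div_le_iff₀ h1]
    nlinarith
  · rw [← Real.rpow_natCast, ← Real.rpow_mul (by linarith)]
    congr 1
    push_cast
    field_simp

lemma exists_Y (R B : ℝ) {Z : ℝ} (hZ : 0 ≤ Z) {n : ℕ} (hn : n ≠ 0) :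
    ∃ Y : ℝ, R ≤ Y ∧ B ≤ Y ∧ Z ≤ Y ^ n ∧ (Y = R ∨ Y = B ∨ Y ^ n = Z) := by
  obtain ⟨Y0, h0, h1⟩ : ∃ Y0 : ℝ, 0 ≤ Y0 ∧ Y0 ^ n = Z :=
    ⟨Z ^ (n : ℝ)⁻¹, by positivity, Real.rpow_inv_natCast_pow hZ hn⟩
  refine ⟨max (max R B) Y0, (le_max_left _ _).trans (le_max_left _ _),
    (le_max_right _ _).trans (le_max_left _ _),
    h1 ▸ pow_le_pow_left₀ h0 (le_max_right _ _) n, ?_⟩
  rcases max_choice (max R B) Y0 with e | e
  · rw [e]
    exact (max_choice R B).imp_right Or.inl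
  · rw [e]
    exact Or.inr (Or.inr h1)

lemma G_le {u P : ℝ} {B D : ℕ} (hD : 5 ≤ D) (hu : 112 * (((D ^ 2 : ℕ) : ℝ) + 2) ≤ u) (hP0 : 0 ≤ P)
    (hP : P ≤ u ^ 2) :
    (112 * u ^ (B * D ^ 2) * (((D ^ 2 : ℕ) : ℝ) + 2) * (2 * P) ^ (4 * D ^ 2 + 7)) ^ D ≤
      (u ^ D ^ 3) ^ (B + 13) := by
  have h0 : (0 : ℝ) ≤ ((D ^ 2 : ℕ) : ℝ) := Nat.cast_nonneg _
  have h1 : 2 ≤ u := by linarith
  have h2 : 2 * P ≤ u ^ 3 := by nlinarith
  have h3 : 25 ≤ D ^ 2 := Nat.pow_le_pow_left hD 2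
  calc _ = (112 * (((D ^ 2 : ℕ) : ℝ) + 2) * u ^ (B * D ^ 2) * (2 * P) ^ (4 * D ^ 2 + 7)) ^ D := by
        rw [mul_right_comm 112]
    _ ≤ (u * u ^ (B * D ^ 2) * (u ^ 3) ^ (4 * D ^ 2 + 7)) ^ D := by gcongr
    _ = u ^ ((B * D ^ 2 + 1 + 3 * (4 * D ^ 2 + 7)) * D) := by
        rw [← pow_succ', ← pow_mul, ← pow_add, ← pow_mul]
    _ ≤ _ := by
        rw [← pow_mul]
        refine pow_le_pow_right₀ (by linarith) ?_
        rw [show D ^ 3 * (B + 13) = (B * D ^ 2 + 13 * D ^ 2) * D by ring]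
        exact Nat.mul_le_mul_right _ (by omega)

theorem core {k : ℕ} (hk : 1 ≤ k) {η : ℝ} (hη : 0 < η) :
    ∃ N0 : ℕ, ∀ (N : ℕ) (T V : ℝ) (b : ℕ → ℂ) (W : Finset ℤ), N0 ≤ N → (N : ℝ) ≤ T →
      T ≤ (N : ℝ) ^ 2 → 0 ≤ V → LV N T V b W → W.Nonempty →
      W.card * V ^ 2 ≤ (N : ℝ) ^ η * (N : ℝ) ^ 2 ∨
      V ^ (4 * k) ≤ (N : ℝ) ^ η * (N : ℝ) ^ (3 * k) ∨
      W.card * V ^ (4 * k) ≤ (N : ℝ) ^ η * (T ^ k * (N : ℝ) ^ (2 * k)) ∨
      (W.card : ℝ) ^ (2 * k + 1) * V ^ (8 * k * (k + 1)) ≤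
        (N : ℝ) ^ η * (T ^ (k + 1) * (N : ℝ) ^ (6 * k * (k + 1))) := by
  have n1 : 14 * k + 19 ≤ (24 * k + 44) * (k + 1) :=
    le_trans (by omega) (Nat.le_mul_of_pos_right _ k.succ_pos)
  have n2 : 4 * (k + 1) + 3 ≤ (2 * k + 3) * (2 * (k + 1)) := by nlinarith
  obtain ⟨w, hw⟩ := exists_wt
  obtain ⟨D, a, hD, ha, hpar⟩ := param k ((24 * k + 44) * (k + 1)) hη
  have hD3 : 1 ≤ D ^ 3 := Nat.one_le_pow _ _ (by omega)
  have hj : 2 ≤ D ^ 3 * D * 6 := by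
    have := Nat.mul_le_mul hD3 (show 1 ≤ D by omega)
    omega
  obtain ⟨CL, hCL1, hCL⟩ := exists_loss (η := a / (k + 3)) (by positivity)
  obtain ⟨Ca, hCa0, hCa⟩ := approx hw.toSm hj
  obtain ⟨Cm, hCm0, hCm⟩ := mom_kr hw.toSm
  obtain ⟨Cl, hCl0, hCl⟩ := low hw
  obtain ⟨N0, hN0⟩ := exists_absorb ha
    (100 + CL + 2 * Ca + 16 * Cm + Cl + 112 * (((D ^ 2 : ℕ) : ℝ) + 2) + 2 ^ (D ^ 2 + 1))
  refine ⟨N0 + 1, fun N T V b W hN hNT hTN hV h hW => ?_⟩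
  have hN1 : 1 ≤ N := by omega
  have hN1' : (1 : ℝ) ≤ N := by exact_mod_cast hN1
  have hN0' : (0 : ℝ) < N := by linarith
  have hT1 : 1 ≤ T := hN1'.trans hNT
  have hR : (1 : ℝ) ≤ W.card := by exact_mod_cast hW.card_pos
  have hK := hN0 N (by omega)
  have hNp : ∀ {i j : ℕ}, i ≤ j → (N : ℝ) ^ i ≤ (N : ℝ) ^ j := fun e => pow_le_pow_right₀ hN1' e
  have hP := hCL ((N : ℝ) ^ (k + 3)) ((N : ℝ) ^ (k + 3)) (one_le_pow₀ hN1') (one_le_pow₀ hN1')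
    (le_self_pow₀ (one_le_pow₀ hN1') (by norm_num))
  obtain ⟨hxN, hxη, hua⟩ := hpar N hN1'
  rw [hua] at hP
  generalize (N : ℝ) ^ a = u at hK hP hxN hxη
  have c1 : (0 : ℝ) ≤ ((D ^ 2 : ℕ) : ℝ) := Nat.cast_nonneg _
  have c2 : (0 : ℝ) ≤ 2 ^ (D ^ 2 + 1) := by positivity
  have hu : 100 ≤ u := by linarith
  have hu1 : 1 ≤ u := by linarith
  have hP0 : 0 ≤ CL * u := by positivity
  have hPu : CL * u ≤ u ^ 2 := by
    rw [sq]
    exact mul_le_mul_of_nonneg_right (by linarith) (by linarith)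
  generalize CL * u = P at hP hP0 hPu
  have hG := G_le (B := 2 * k + 5) (show 5 ≤ D by omega) (by linarith) hP0 hPu
  have huj : u ^ (D ^ 3 * D * 6) = (N : ℝ) ^ 6 := by rw [pow_mul, pow_mul, hxN]
  have hz1 : u ≤ u ^ ((2 * k + 5) * D ^ 2) := le_self_pow₀ hu1 (Nat.mul_ne_zero (by omega) (pow_ne_zero 2 (by omega)))
  have hz2 : u ^ ((2 * k + 5) * D ^ 2) ≤ u ^ D ^ 3 :=
    pow_le_pow_right₀ hu1 (by rw [pow_succ' D 2]; exact Nat.mul_le_mul_right _ hD)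
  have hz3 : (u ^ ((2 * k + 5) * D ^ 2)) ^ D ^ 2 = (N : ℝ) ^ (2 * k + 5) := by
    rw [← hxN]
    simp only [← pow_mul]
    congr 1
    ring
  generalize u ^ ((2 * k + 5) * D ^ 2) = z at hG hz1 hz2 hz3
  generalize u ^ D ^ 3 = x at hG hz2 hxN hxη
  have hux : u ≤ x := hz1.trans hz2
  have hx : 100 ≤ x := hu.trans hux
  have hx1 : 1 ≤ x := by linarith
  have hxp : ∀ {i j : ℕ}, i ≤ j → x ^ i ≤ x ^ j := fun e => pow_le_pow_right₀ hx1 e
  have hx3 : 100 * x ^ 2 ≤ x ^ 3 := by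
    rw [pow_succ' x 2]
    exact mul_le_mul_of_nonneg_right hx (sq_nonneg x)
  have hx2 : x ≤ x ^ 2 := le_self_pow₀ hx1 (by norm_num)
  have hx3N : x ^ 3 ≤ N := (hxp (by omega)).trans_eq hxN
  have hN2 : (N : ℝ) ≤ (N : ℝ) ^ 2 := le_self_pow₀ hN1' (by norm_num)
  have hN3 : 2 * (N : ℝ) ^ 2 ≤ (N : ℝ) ^ 3 := by
    rw [pow_succ' (N : ℝ) 2]
    exact mul_le_mul_of_nonneg_right (by linarith) (sq_nonneg _)
  obtain ⟨M, hM⟩ : ∃ M : ℕ, M = ⌈u * (1 + T) / N⌉₊ := ⟨_, rfl⟩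
  have hM0 : 0 < u * (1 + T) / N := by positivity
  have hM1 : 1 ≤ M := by rw [hM]; exact Nat.ceil_pos.2 hM0
  have hM2 : u * (1 + T) ≤ M * N := by
    rw [← div_le_iff₀ hN0', hM]
    exact Nat.le_ceil _
  have hQ1 : 1 ≤ T / N := (one_le_div hN0').2 hNT
  have hQ2 : T / N ≤ N := by rw [div_le_iff₀ hN0', ← sq]; exact hTN
  have hM3 : (M : ℝ) ≤ 3 * u * (T / N) := by
    have h1 : (M : ℝ) < u * (1 + T) / N + 1 := by rw [hM]; exact Nat.ceil_lt_add_one hM0.le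
    have h2 : u * (1 + T) / N ≤ 2 * (u * (T / N)) := by
      rw [← mul_div_assoc, ← mul_div_assoc]
      exact div_le_div_of_nonneg_right (by nlinarith only [hT1, hu]) hN0'.le
    have h3 : 1 ≤ u * (T / N) := one_le_mul_of_one_le_of_one_le hu1 hQ1
    linarith
  obtain ⟨y, hy⟩ : ∃ y : ℕ, y = max (2 * M) ⌈4 * z ^ 2⌉₊ := ⟨_, rfl⟩
  have hy1 : 2 * M ≤ y := hy ▸ le_max_left _ _
  have hy2 : 4 * z ^ 2 ≤ y := Nat.ceil_le.1 (hy ▸ le_max_right _ _)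
  have hy3 : (y : ℝ) ≤ x ^ 3 * (T / N) := by
    rw [hy, Nat.cast_max]
    refine max_le ?_ ?_
    · push_cast
      have e1 : 6 * u * (T / N) ≤ x ^ 3 * (T / N) :=
        mul_le_mul_of_nonneg_right (by linarith) (by linarith)
      linarith
    · have e1 := (Nat.ceil_lt_add_one (show 0 ≤ 4 * z ^ 2 by positivity)).le
      have e2 : z ^ 2 ≤ x ^ 2 := pow_le_pow_left₀ (by linarith) hz2 2
      exact le_trans (by linarith) (le_mul_of_one_le_right (by positivity) hQ1)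
  have hy4 : (y : ℝ) ≤ (N : ℝ) ^ 2 := by
    rw [sq]
    exact hy3.trans (mul_le_mul hx3N hQ2 (by linarith) hN0'.le)
  have hM5 : (M : ℝ) ≤ (N : ℝ) ^ 2 :=
    le_trans (by exact_mod_cast (show M ≤ y by omega)) hy4
  obtain ⟨e0, he0⟩ : ∃ e0 : ℝ, e0 = Ca * (N * M) / (N : ℝ) ^ 6 := ⟨_, rfl⟩
  have he1 : 0 ≤ e0 := by rw [he0]; positivity
  have he2 : (T + 1) * e0 ≤ N := by
    refine le_trans ?_ hN1'
    rw [he0, ← mul_div_assoc, div_le_one (by positivity)]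
    have h1 : T + 1 ≤ 2 * (N : ℝ) ^ 2 := by linarith
    calc (T + 1) * (Ca * (N * M)) ≤ 2 * (N : ℝ) ^ 2 * (Ca * (N * (N : ℝ) ^ 2)) := by gcongr
      _ = 2 * Ca * (N : ℝ) ^ 5 := by ring
      _ ≤ N * (N : ℝ) ^ 5 := mul_le_mul_of_nonneg_right (by linarith) (by positivity)
      _ = (N : ℝ) ^ 6 := by ring
  have happ : ∀ t : ℤ, |(t : ℝ)| ≤ T → ‖gg w N t - N * ff w t 0 - kr w N M t‖ ≤ e0 := by
    intro t ht
    rw [he0, ← huj]
    exact hCa N M u t hN1 hM1 (by linarith) (le_trans (by gcongr) hM2)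
  have hRN : (W.card : ℝ) ≤ (N : ℝ) ^ 3 := by linarith [card_le_of_inR (by linarith) h.inr]
  obtain ⟨g, hg⟩ : ∃ g, g = x ^ (2 * k + 5) := ⟨_, rfl⟩
  have hg1 : x ≤ g := hg ▸ le_self_pow₀ hx1 (by omega)
  have hg2 : g ≤ N := hg ▸ (hxp hD).trans_eq hxN
  have hg0 : 0 ≤ g := by linarith
  obtain ⟨Y, y1, y2, y3, y4⟩ := exists_Y W.card ((y : ℝ) ^ k)
    (Z := (2 * g * T) ^ (k + 1) * W.card) (by positivity)
    (n := 2 * (k + 1)) (by omega)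
  have hY0 : 0 < Y := by linarith
  have hY : Y ≤ (N : ℝ) ^ (2 * k + 3) := by
    rcases y4 with e | e | e
    · exact e.le.trans (hRN.trans (hNp (by omega)))
    · rw [e]
      refine (pow_le_pow_left₀ (Nat.cast_nonneg y) hy4 k).trans ?_
      rw [← pow_mul]
      exact hNp (by omega)
    · refine le_of_pow_le_pow_left₀ (n := 2 * (k + 1)) (by omega) (by positivity) ?_
      have e1 : 2 * g * T ≤ (N : ℝ) ^ 4 := by
        calc 2 * g * T ≤ 2 * N * (N : ℝ) ^ 2 := by gcongr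
          _ = 2 * (N : ℝ) ^ 2 * N := by ring
          _ ≤ (N : ℝ) ^ 3 * N := by gcongr
          _ = _ := by ring
      calc _ = _ := e
        _ ≤ ((N : ℝ) ^ 4) ^ (k + 1) * (N : ℝ) ^ 3 := by gcongr
        _ ≤ _ := by
          rw [← pow_mul, ← pow_mul, ← pow_add]
          exact hNp n2
  have hYy : Y * y ≤ (N : ℝ) ^ (2 * k + 5) :=
    (mul_le_mul hY hy4 (Nat.cast_nonneg y) (by positivity)).trans_eq (by ring)
  have hpa : Par ((N : ℝ) ^ (k + 3)) P T Y g z W.card y k D (D ^ 2) := by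
    refine ⟨hP, hT1, hR, y1, hk, by omega, by linarith, by linarith, y2, hy2,
      hY.trans ((hNp (by omega)).trans_eq hz3.symm), hYy.trans_eq ?_, ?_, ?_⟩
    · rw [hg, ← pow_mul, mul_comm _ D, pow_mul x D, hxN]
    · calc _ ≤ N * (N : ℝ) ^ (2 * k + 5) := mul_le_mul (by linarith) hYy (by positivity) hN0'.le
        _ = _ := by ring
    · rw [← mul_div_assoc, div_pow, div_mul_eq_mul_div, div_le_iff₀ (by positivity), ← pow_add,
        ← two_mul, ← mul_assoc g, mul_comm g]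
      exact y3
  have hok := boot hpa h.inr
  have hG0 : 0 ≤ (112 * z * (((D ^ 2 : ℕ) : ℝ) + 2) * (2 * P) ^ (4 * D ^ 2 + 7)) ^ D := by
    have : 0 ≤ z := by linarith
    positivity
  generalize (112 * z * (((D ^ 2 : ℕ) : ℝ) + 2) * (2 * P) ^ (4 * D ^ 2 + 7)) ^ D = G at hG hok hG0
  have hc : ∀ {i : ℕ}, i ≤ (24 * k + 44) * (k + 1) → x ^ i ≤ (N : ℝ) ^ η :=
    fun e => (hxp e).trans hxη
  rcases hCl N M k T V e0 _ b W hN1 hk hV he1 (by linarith) he2 h hW happ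
    (hCm N M _ P Y G y k W hN1 hM1 hk hP hy1 y2 hpa.yT.2.2.1 (hM5.trans (hNp (by omega))) hG0
      hok) with e | e
  · have e1 := hc (i := 1) (by omega)
    rw [pow_one] at e1
    exact Or.inl (e.trans (mul_le_mul_of_nonneg_right (by linarith) (by positivity)))
  right
  have key : W.card * V ^ (4 * k) ≤ x ^ (11 * k + 19) * ((N : ℝ) ^ (3 * k) * Y) := by
    refine e.trans ?_
    have e1 : P ≤ x ^ 2 := hPu.trans (pow_le_pow_left₀ (by linarith) hux 2)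
    have e2 : 16 * Cm ≤ x := by linarith
    have e3 : (2 : ℝ) ≤ x := by linarith
    calc _ = (16 * Cm * P ^ 4) ^ k * (2 * G) * ((N : ℝ) ^ (3 * k) * Y) := by
          rw [show (16 : ℝ) = 4 ^ 2 by norm_num]
          simp only [mul_pow, ← pow_mul]
          ring
      _ ≤ (x * (x ^ 2) ^ 4) ^ k * (x * x ^ (2 * k + 5 + 13)) * ((N : ℝ) ^ (3 * k) * Y) := by
          gcongr
      _ = _ := by
          simp only [mul_pow, ← pow_mul]
          ring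
  rcases y4 with e1 | e1 | e1
  · left
    rw [e1, ← mul_assoc, mul_comm _ (W.card : ℝ)] at key
    exact (le_of_mul_le_mul_left key (by linarith)).trans
      (mul_le_mul_of_nonneg_right (hc (by omega)) (by positivity))
  · right
    left
    have e2 : (N : ℝ) ^ (3 * k) * Y ≤ x ^ (3 * k) * (T ^ k * (N : ℝ) ^ (2 * k)) := by
      rw [e1]
      calc _ ≤ (N : ℝ) ^ (3 * k) * (x ^ 3 * (T / N)) ^ k := by gcongr
        _ = _ := by
          rw [mul_pow, div_pow, ← pow_mul]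
          field_simp
          ring
    refine (key.trans (mul_le_mul_of_nonneg_left e2 (by positivity))).trans ?_
    rw [← mul_assoc, ← pow_add]
    exact mul_le_mul_of_nonneg_right (hc (by omega)) (by positivity)
  · right
    right
    have e2 := pow_le_pow_left₀ (by positivity) key (2 * (k + 1))
    rw [mul_pow (x ^ _), mul_pow ((N : ℝ) ^ _), e1] at e2
    have e3 : 2 * g ≤ x ^ (2 * k + 6) := by
      rw [hg, pow_succ' x (2 * k + 5)]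
      exact mul_le_mul_of_nonneg_right (by linarith) (by positivity)
    refine le_of_mul_le_mul_right ?_ (show (0 : ℝ) < W.card by linarith)
    calc _ = (W.card * V ^ (4 * k)) ^ (2 * (k + 1)) := by
          simp only [mul_pow, ← pow_mul]
          ring
      _ ≤ _ := e2
      _ ≤ (x ^ (11 * k + 19)) ^ (2 * (k + 1)) * (((N : ℝ) ^ (3 * k)) ^ (2 * (k + 1)) *
          ((x ^ (2 * k + 6) * T) ^ (k + 1) * W.card)) := by gcongr
      _ = x ^ ((24 * k + 44) * (k + 1)) * (T ^ (k + 1) * (N : ℝ) ^ (6 * k * (k + 1)) * W.card) := by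
          simp only [mul_pow, ← pow_mul]
          ring
      _ ≤ _ := by
          rw [mul_assoc ((N : ℝ) ^ η)]
          exact mul_le_mul_of_nonneg_right hxη (by positivity)

end Pool.Agent.Lib.MP_ecd12e_nt.SR
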