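import Mathlib

/-!
Smooth numbers as products of factors of controlled size, and two pointwise inequalities.
-/

set_option autoImplicit false

namespace Pool.Agent.Lib.MP_ecd12e_nt.SR

open Finset Real

/-- All prime factors of `n` are at most `y`. -/
def Smo (y n : ℕ) : Prop := ∀ p : ℕ, p.Prime → p ∣ n → p ≤ y

lemma Smo.of_dvd {y n m : ℕ} (h : Smo y n) (hm : m ∣ n) : Smo y m :=
  fun p hp hd => h p hp (hd.trans hm)

lemma smo_prod {ι : Type*} {y : ℕ} (s : Finset ι) (f : ι → ℕ) (h : ∀ i ∈ s, 1 ≤ f i ∧ f i ≤ y) :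
    Smo y (∏ i ∈ s, f i) := fun p hp hd => by
  obtain ⟨i, hi, hpi⟩ := (Prime.dvd_finsetProd_iff hp.prime _).1 hd
  exact (Nat.le_of_dvd (h i hi).1 hpi).trans (h i hi).2

/-- A smooth number above `y` has a divisor in `(√y, y]`. -/
lemma fac_div {y n : ℕ} (hy : 1 ≤ y) (hn : y < n) (h : Smo y n) :
    ∃ a, a ∣ n ∧ a ≤ y ∧ y < a ^ 2 := by
  obtain ⟨a, ha, hm⟩ := exists_max_image ((Icc 1 y).filter fun a => a ∣ n) id
    ⟨1, mem_filter.2 ⟨mem_Icc.2 ⟨le_rfl, hy⟩, one_dvd _⟩⟩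
  obtain ⟨h1, c, rfl⟩ := mem_filter.1 ha
  obtain ⟨h2, h3⟩ := mem_Icc.1 h1
  refine ⟨a, Dvd.intro _ rfl, h3, ?_⟩
  by_contra hc
  have hc1 : c ≠ 1 := by
    rintro rfl
    omega
  obtain ⟨p, hp, hpc⟩ := Nat.exists_prime_and_dvd hc1
  have h4 : p ∣ a * c := hpc.mul_left a
  have h5 : p ≤ a := hm p (mem_filter.2 ⟨mem_Icc.2 ⟨hp.one_le, h p hp h4⟩, h4⟩)
  have h6 : a * p ≤ y := (Nat.mul_le_mul_left a h5).trans (by rw [← sq]; omega)
  have h7 : a * p ≤ a := hm (a * p) (mem_filter.2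
    ⟨mem_Icc.2 ⟨Nat.mul_pos h2 hp.pos, h6⟩, Nat.mul_dvd_mul_left a hpc⟩)
  have h8 := hp.two_le
  nlinarith

theorem fac {y : ℕ} (hy : 1 ≤ y) (r : ℕ) : ∀ n : ℕ, 1 ≤ n → Smo y n → n ^ 2 ≤ y ^ (r + 2) →
    ∃ f : ℕ → ℕ, ∏ i ∈ range (r + 1), f i = n ∧ (∀ i, 1 ≤ f i ∧ f i ≤ y) ∧
      ∀ i, i ≠ 0 → f i = 1 ∨ y < f i ^ 2 := by
  have small : ∀ r n : ℕ, 1 ≤ n → n ≤ y →
      ∃ f : ℕ → ℕ, ∏ i ∈ range (r + 1), f i = n ∧ (∀ i, 1 ≤ f i ∧ f i ≤ y) ∧
        ∀ i, i ≠ 0 → f i = 1 ∨ y < f i ^ 2 := fun r n h1 h2 => by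
    refine ⟨fun i => if i = 0 then n else 1, ?_, fun i => ?_, fun i hi => Or.inl (if_neg hi)⟩
    · rw [prod_range_succ']
      simp
    · by_cases hi : i = 0 <;> simp [hi, h1, h2, hy]
  induction r with
  | zero => exact fun n h1 _ h3 => small 0 n h1 (le_of_pow_le_pow_left₀ two_ne_zero (by omega) h3)
  | succ r ih =>
    intro n h1 h2 h3
    rcases le_or_gt n y with h4 | h4
    · exact small _ n h1 h4
    obtain ⟨a, ⟨c, rfl⟩, ha1, ha2⟩ := fac_div hy h4 h2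
    have hc : 1 ≤ c := Nat.pos_of_mul_pos_left h1
    have ha : 1 ≤ a := Nat.pos_of_mul_pos_right h1
    obtain ⟨f, e1, e2, e3⟩ := ih c hc (h2.of_dvd (Dvd.intro_left _ rfl)) (by
      refine Nat.le_of_mul_le_mul_left ?_ hy
      calc y * c ^ 2 ≤ a ^ 2 * c ^ 2 := Nat.mul_le_mul_right _ ha2.le
        _ = (a * c) ^ 2 := by ring
        _ ≤ _ := h3
        _ = _ := by ring)
    refine ⟨fun i => if i = r + 1 then a else f i, ?_, fun i => ?_, fun i hi => ?_⟩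
    · rw [prod_range_succ, if_pos rfl, prod_congr rfl fun i hi =>
        if_neg (mem_range.1 hi).ne, e1, mul_comm]
    · by_cases hi : i = r + 1
      · simp only [if_pos hi]
        exact ⟨ha, ha1⟩
      · simp only [if_neg hi]
        exact e2 i
    · by_cases hi' : i = r + 1
      · simp only [if_pos hi']
        exact Or.inr ha2
      · simp only [if_neg hi']
        exact e3 i hi

/-- A product is bounded by powers of its factors. -/
lemma prod_le_pows {ι : Type*} (s : Finset ι) (a u : ι → ℝ) {Q : ℝ} (hQ : 1 < Q)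
    (ha : ∀ i ∈ s, 1 < a i) (hu : ∀ i ∈ s, 0 ≤ u i) (hp : ∏ i ∈ s, a i ≤ Q) :
    ∏ i ∈ s, u i ≤ 1 + ∑ i ∈ s, u i ^ (Real.log Q / Real.log (a i)) := by
  obtain ⟨M, hM⟩ : ∃ M, M = 1 + ∑ i ∈ s, u i ^ (Real.log Q / Real.log (a i)) := ⟨_, rfl⟩
  have hq := Real.log_pos hQ
  have h0 : ∀ i ∈ s, 0 ≤ u i ^ (Real.log Q / Real.log (a i)) := fun i hi =>
    Real.rpow_nonneg (hu i hi) _
  have hM1 : 1 ≤ M := by linarith [sum_nonneg h0]
  rw [← hM]
  have h1 : ∀ i ∈ s, u i ≤ M ^ (Real.log (a i) / Real.log Q) := fun i hi => by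
    have hl := Real.log_pos (ha i hi)
    have h2 : u i ^ (Real.log Q / Real.log (a i)) ≤ M := by linarith [single_le_sum h0 hi]
    have h3 := Real.rpow_le_rpow (h0 i hi) h2 (div_pos hl hq).le
    rwa [← Real.rpow_mul (hu i hi), div_mul_div_cancel₀ hl.ne', div_self hq.ne',
      Real.rpow_one] at h3
  refine (prod_le_prod hu h1).trans ?_
  rw [← Real.rpow_sum_of_pos (by linarith)]
  refine (Real.rpow_le_rpow_of_exponent_le hM1 ?_).trans_eq (Real.rpow_one M)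
  rw [← sum_div, div_le_one hq, ← Real.log_prod fun i hi => by linarith [ha i hi]]
  exact Real.log_le_log (prod_pos fun i hi => by linarith [ha i hi]) hp

/-- Interpolation between the moments of order `0` and `i`. -/
lemma mom_interp {α : Type*} (S : Finset α) (u : α → ℝ) (hu : ∀ x, 0 ≤ u x) {p B m : ℝ} {i : ℕ}
    (hi : 1 ≤ i) (hp0 : 0 ≤ p) (hp : p ≤ i) (hB : 0 < B) (hm : 0 < m) (hS : (S.card : ℝ) ≤ m)
    (h : ∑ x ∈ S, u x ^ i ≤ B) : ∑ x ∈ S, u x ^ p ≤ 2 * m * (B / m) ^ (p / i) := by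
  have hi0 : (0 : ℝ) < i := by exact_mod_cast hi
  obtain ⟨l, hl⟩ : ∃ l, l = (B / m) ^ (1 / (i : ℝ)) := ⟨_, rfl⟩
  have hl0 : 0 < l := hl ▸ Real.rpow_pos_of_pos (div_pos hB hm) _
  have e1 : l ^ i = B / m := by
    rw [hl, ← Real.rpow_natCast, ← Real.rpow_mul (div_pos hB hm).le, one_div,
      inv_mul_cancel₀ hi0.ne', Real.rpow_one]
  have e2 : l ^ p = (B / m) ^ (p / i) := by
    rw [hl, ← Real.rpow_mul (div_pos hB hm).le]
    congr 1
    ring
  have hlp : 0 < l ^ p := Real.rpow_pos_of_pos hl0 _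
  have h1 : ∀ x ∈ S, u x ^ p ≤ l ^ p + l ^ p / l ^ i * u x ^ i := fun x _ => by
    have h2 : 0 ≤ l ^ p / l ^ i * u x ^ i := by have := hu x; positivity
    rcases le_total (u x) l with h3 | h3
    · linarith [Real.rpow_le_rpow (hu x) h3 hp0]
    · have h4 : 0 < u x := hl0.trans_le h3
      have h5 : (u x / l) ^ p ≤ (u x / l) ^ (i : ℝ) :=
        Real.rpow_le_rpow_of_exponent_le ((one_le_div hl0).2 h3) hp
      rw [Real.rpow_natCast, Real.div_rpow h4.le hl0.le, div_pow, div_le_iff₀ hlp] at h5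
      have h6 : u x ^ i / l ^ i * l ^ p = l ^ p / l ^ i * u x ^ i := by ring
      linarith
  refine (sum_le_sum h1).trans ?_
  rw [sum_add_distrib, sum_const, nsmul_eq_mul, ← mul_sum, ← e2]
  have h2 : l ^ p / l ^ i * ∑ x ∈ S, u x ^ i ≤ l ^ p / l ^ i * B := by gcongr
  have h3 : l ^ p / l ^ i * B = m * l ^ p := by
    rw [e1]
    field_simp
  nlinarith [mul_le_mul_of_nonneg_right hS hlp.le]

end Pool.Agent.Lib.MP_ecd12e_nt.SR
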