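import Pool.Agent.Lib.MP_ecd12e_nt.SR.Core
import Pool.Agent.Lib.MP_ecd12e_nt.DH.Real

/-!
The range of the conjectured bound.
-/

set_option autoImplicit false

namespace Pool.Agent.Lib.MP_ecd12e_nt.SR

open Finset Real
open Pool.Agent.Lib.MP_ecd12e_nt.Bar
open Pool.Agent.Lib.MP_ecd12e_nt.GM (DD)
open Pool.Agent.Lib.MP_ecd12e_nt.Sch (LV exists_absorb card_le_of_inR)
open Pool.Agent.Lib.MP_ecd12e_nt.DH

lemma fin_gen {N R V κ σ e f : ℝ} {p q : ℕ} (hN : 1 ≤ N) (hκ : 1 ≤ κ) (hR : 0 ≤ R) (hp : p ≠ 0)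
    (hV : N ^ σ ≤ κ * V) (h : R ^ p * V ^ q ≤ N ^ e) (he : e ≤ p * f + q * σ) :
    R ≤ κ ^ q * N ^ f := by
  have hN0 : 0 < N := by linarith
  have h1 : 0 < N ^ σ := Real.rpow_pos_of_pos hN0 σ
  have h2 : 0 < N ^ f := Real.rpow_pos_of_pos hN0 f
  have h3 : 1 ≤ κ ^ q := one_le_pow₀ hκ
  refine le_of_pow_le_pow_left₀ hp (by positivity) (le_of_mul_le_mul_right ?_ (pow_pos h1 q))
  calc _ ≤ R ^ p * (κ * V) ^ q := by gcongr
    _ = κ ^ q * (R ^ p * V ^ q) := by ring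
    _ ≤ (κ ^ q) ^ p * N ^ (p * f + q * σ) :=
        mul_le_mul (le_self_pow₀ h3 hp) (h.trans (Real.rpow_le_rpow_of_exponent_le hN he))
          (mul_nonneg (by positivity) (pow_nonneg (by
            by_contra hc
            nlinarith) q)) (by positivity)
    _ = _ := by
        rw [Real.rpow_add hN0, mul_comm (p : ℝ), mul_comm (q : ℝ), Real.rpow_mul_natCast hN0.le,
          Real.rpow_mul_natCast hN0.le, mul_pow, mul_assoc]

lemma fin_gap {k σ : ℝ} (hk : 1 ≤ k)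
    (h : 1 ≤ 2 * k * (4 * σ - 3) + (2 - 2 * σ) * (2 * k + 1) / (k + 1)) :
    1 / (4 * (k + 1)) ≤ k * (4 * σ - 3) := by
  have h1 : 0 < k + 1 := by linarith
  rw [← sub_le_iff_le_add', le_div_iff₀ h1] at h
  rw [div_le_iff₀ (by positivity)]
  rcases le_total (4 * σ - 3) 0 with h2 | h2
  · nlinarith [mul_nonneg (neg_nonneg.2 h2) (show 0 ≤ 4 * k * k + 2 * k - 1 by nlinarith)]
  · nlinarith [mul_nonneg h2 (show 0 ≤ 2 * k + 1 by linarith)]

theorem fin_int {k : ℕ} (hk : 1 ≤ k) {ε κ : ℝ} (hε : 0 < ε) (hκ : 1 ≤ κ) :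
    ∃ C : ℝ, 0 ≤ C ∧ ∀ (σ : ℝ) (N : ℕ) (T V : ℝ) (b : ℕ → ℂ) (W : Finset ℤ), σ ≤ 1 → 1 ≤ N →
      (N : ℝ) ≤ T → T ≤ (N : ℝ) ^ (4 * σ - 2 + (2 - 2 * σ) / k) →
      T ≤ (N : ℝ) ^ (2 * k * (4 * σ - 3) + (2 - 2 * σ) * (2 * k + 1) / (k + 1)) →
      (N : ℝ) ^ σ ≤ κ * V → LV N T V b W → (W.card : ℝ) ≤ C * (N : ℝ) ^ (2 - 2 * σ + ε) := by
  have hk' : (1 : ℝ) ≤ k := by exact_mod_cast hk
  obtain ⟨δ, hδ⟩ : ∃ δ : ℝ, δ = 1 / (8 * (k + 1)) := ⟨_, rfl⟩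
  have hδ0 : 0 < δ := by rw [hδ]; positivity
  obtain ⟨η, hη, hη1, hη2⟩ : ∃ η : ℝ, 0 < η ∧ η ≤ ε ∧ η ≤ δ :=
    ⟨min ε δ, lt_min hε hδ0, min_le_left _ _, min_le_right _ _⟩
  obtain ⟨N0, H⟩ := core hk hη
  obtain ⟨N1, H1⟩ := exists_absorb hδ0 (κ ^ (4 * k) + 1)
  refine ⟨((N0 + N1 + 2 : ℕ) : ℝ) ^ 2 + 1 + κ ^ (8 * k * (k + 1)), by positivity, ?_⟩
  intro σ N T V b W hσ hN hT hU hL hV hLV
  have hN1 : (1 : ℝ) ≤ N := by exact_mod_cast hN
  have hN0 : (0 : ℝ) < N := by linarith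
  have hT0 : 0 ≤ T := by linarith
  have hp : 1 ≤ (N : ℝ) ^ (2 - 2 * σ + ε) := Real.one_le_rpow hN1 (by linarith)
  have hTN : T ≤ (N : ℝ) ^ 2 := by
    refine hU.trans ?_
    rw [← Real.rpow_natCast]
    refine Real.rpow_le_rpow_of_exponent_le hN1 ?_
    have := div_le_self (show 0 ≤ 2 - 2 * σ by linarith) hk'
    push_cast
    linarith
  have hκp : 0 ≤ κ ^ (8 * k * (k + 1)) := by positivity
  rcases lt_or_ge N (N0 + N1 + 2) with hlt | hge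
  · have e0 : (N : ℝ) ≤ ((N0 + N1 + 2 : ℕ) : ℝ) := by exact_mod_cast hlt.le
    have e1 := pow_le_pow_left₀ hN0.le e0 2
    exact le_trans (by linarith [card_le_of_inR hT0 hLV.inr])
      (le_mul_of_one_le_right (by positivity) hp)
  rcases W.eq_empty_or_nonempty with rfl | hW
  · rw [card_empty, Nat.cast_zero]
    positivity
  have hV0 : 0 ≤ V := by
    by_contra hc
    nlinarith [Real.rpow_pos_of_pos hN0 σ]
  have fin : ∀ q : ℕ, q ≤ 8 * k * (k + 1) → (W.card : ℝ) ≤ κ ^ q * (N : ℝ) ^ (2 - 2 * σ + ε) →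
      (W.card : ℝ) ≤ (((N0 + N1 + 2 : ℕ) : ℝ) ^ 2 + 1 + κ ^ (8 * k * (k + 1))) *
        (N : ℝ) ^ (2 - 2 * σ + ε) := fun q hq h =>
    h.trans (mul_le_mul_of_nonneg_right ((pow_le_pow_right₀ hκ hq).trans
      (le_add_of_nonneg_left (by positivity))) (by linarith))
  have n1 : 4 * k ≤ 8 * k * (k + 1) := le_trans (by omega) (Nat.le_mul_of_pos_right _ k.succ_pos)
  have hR : (0 : ℝ) ≤ W.card := Nat.cast_nonneg _
  have hpw : ∀ (u : ℝ) (i j : ℕ), T ≤ (N : ℝ) ^ u →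
      (N : ℝ) ^ η * (T ^ i * (N : ℝ) ^ j) ≤ (N : ℝ) ^ (η + (u * i + j)) := fun u i j h => by
    rw [Real.rpow_add hN0, Real.rpow_add hN0, Real.rpow_natCast, Real.rpow_mul_natCast hN0.le]
    gcongr
  rcases H N T V b W (by omega) hT hTN hV0 hLV hW with h | h | h | h
  · rw [← Real.rpow_natCast (N : ℝ), ← Real.rpow_add hN0, ← pow_one (W.card : ℝ)] at h
    exact fin 2 (by omega) (fin_gen hN1 hκ hR one_ne_zero hV h (by push_cast; linarith))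
  · exfalso
    have hN2 : (1 : ℝ) < N := by exact_mod_cast (show 1 < N by omega)
    have e1 := fin_gap hk' ((Real.rpow_le_rpow_left_iff hN2).1
      ((Real.rpow_one _).trans_le (hT.trans hL)))
    have e2 : 1 / (4 * ((k : ℝ) + 1)) = 2 * δ := by rw [hδ]; field_simp; norm_num
    rw [← Real.rpow_natCast (N : ℝ), ← Real.rpow_add hN0, ← one_mul (V ^ _), ← one_pow 1] at h
    have e3 := fin_gen (f := -δ) hN1 hκ zero_le_one one_ne_zero hV h (by push_cast; linarith)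
    rw [Real.rpow_neg hN0.le, ← div_eq_mul_inv, le_div_iff₀ (by positivity)] at e3
    linarith [H1 N (by omega)]
  · rw [← pow_one (W.card : ℝ)] at h
    refine fin _ n1 (fin_gen hN1 hκ hR one_ne_zero hV (h.trans (hpw _ _ _ hU)) ?_)
    rw [add_mul, div_mul_cancel₀ _ (by positivity)]
    push_cast
    linarith
  · refine fin _ le_rfl (fin_gen hN1 hκ hR (by omega) hV (h.trans (hpw _ _ _ hL)) ?_)
    push_cast
    rw [add_mul, div_mul_cancel₀ _ (by positivity)]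
    nlinarith [mul_nonneg (show (0 : ℝ) ≤ k by linarith) hε.le]

theorem strong_real {k : ℕ} (hk : 1 ≤ k) {ε : ℝ} (hε : 0 < ε) :
    ∃ C : ℝ, ∀ σ : ℝ, σ ≤ 1 → ∀ N : ℕ, 1 ≤ N → ∀ T : ℝ, (N : ℝ) ≤ T →
      T ≤ (N : ℝ) ^ (4 * σ - 2 + (2 - 2 * σ) / k) →
      T ≤ (N : ℝ) ^ (2 * k * (4 * σ - 3) + (2 - 2 * σ) * (2 * k + 1) / (k + 1)) →
      ∀ b : ℕ → ℂ, (∀ n, ‖b n‖ ≤ 1) →
      ∀ W : Finset ℝ, (∀ t ∈ W, ∀ t' ∈ W, t ≠ t' → 1 ≤ |t - t'|) →
        (∀ t ∈ W, 0 ≤ t ∧ t ≤ T ∧ (N : ℝ) ^ σ ≤ ‖∑ n ∈ Icc N (2 * N),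
          b n * Complex.exp (((t * log (n : ℝ) : ℝ) : ℂ) * Complex.I)‖) →
        (W.card : ℝ) ≤ C * (N : ℝ) ^ (2 - 2 * σ + ε) := by
  have hQ : (1 : ℝ) ≤ 4 * exp 4 := by linarith [one_le_exp (x := 4) (by norm_num)]
  obtain ⟨C, hC0, hC⟩ := fin_int hk (half_pos hε) hQ
  obtain ⟨C', hC0', hC'⟩ := rl_count (half_pos hε)
  refine ⟨C' * C, fun σ hσ1 N hN T hT hU hL b hb W hsep hW => ?_⟩
  have hN1 : (1 : ℝ) ≤ N := by exact_mod_cast hN
  have hN' : (0 : ℝ) < N := by linarith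
  have hV1 : 1 ≤ (N : ℝ) ^ σ := by
    rcases hN1.eq_or_lt with e | e
    · rw [← e, Real.one_rpow]
    · have hk' : (1 : ℝ) ≤ k := by exact_mod_cast hk
      have e1 := fin_gap hk' ((Real.rpow_le_rpow_left_iff e).1
        ((Real.rpow_one _).trans_le (hT.trans hL)))
      have e2 : 0 < 1 / (4 * ((k : ℝ) + 1)) := by positivity
      refine Real.one_le_rpow hN1 ?_
      by_contra hc
      nlinarith
  have hV : 0 < (N : ℝ) ^ σ := by linarith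
  set q : ℕ → ℝ := fun j => 4 * (2 ^ j / j.factorial) with hq
  have hq0 : ∀ j, 0 < q j := fun j => by
    have hf : (0 : ℝ) < j.factorial := by exact_mod_cast j.factorial_pos
    simp only [hq]
    positivity
  have hq1 : ∀ j, q j ≤ 4 * exp 4 := fun j =>
    (rl_q j).trans (div_le_self (by positivity) (one_le_pow₀ (by norm_num)))
  have hex : ∀ t : ℝ, ∃ j : ℕ, t ∈ W → (N : ℝ) ^ σ / q j < ‖DD N (rl_b N b j) ⌊t⌋‖ := fun t => by
    by_cases ht : t ∈ W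
    · obtain ⟨j, hj⟩ := rl_exists b hV ((hW t ht).2.2.trans (rl_norm hN b t).ge)
      exact ⟨j, fun _ => hj⟩
    · exact ⟨0, fun h => absurd h ht⟩
  choose J hJ using hex
  have hfib : ∀ j : ℕ, ((W.filter fun t => J t = j).card : ℝ)
      ≤ C * (N : ℝ) ^ (2 - 2 * σ + ε / 2) := fun j => by
    have h1 : ((W.filter fun t => J t = j).image fun t => ⌊t⌋).card
        = (W.filter fun t => J t = j).card := card_image_of_injOn fun t ht t' ht' h => by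
      by_contra hne
      have h2 := hsep t (mem_filter.1 ht).1 t' (mem_filter.1 ht').1 hne
      linarith [Int.abs_sub_lt_one_of_floor_eq_floor h]
    have h3 : (N : ℝ) ^ σ ≤ 4 * exp 4 * ((N : ℝ) ^ σ / q j) := by
      rw [← mul_div_assoc, le_div_iff₀ (hq0 j), mul_comm]
      exact mul_le_mul_of_nonneg_right (hq1 j) hV.le
    have h2 := hC σ N T ((N : ℝ) ^ σ / q j) (rl_b N b j)
      ((W.filter fun t => J t = j).image fun t => ⌊t⌋) hσ1 hN hT hU hL h3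
      ⟨rl_b_le hN hb j, fun k hk => by
        obtain ⟨t, ht, rfl⟩ := mem_image.1 hk
        obtain ⟨ht1, -⟩ := mem_filter.1 ht
        exact ⟨Int.floor_nonneg.2 (hW t ht1).1, (Int.floor_le t).trans (hW t ht1).2.1⟩,
      fun k hk => by
        obtain ⟨t, ht, rfl⟩ := mem_image.1 hk
        obtain ⟨ht1, ht2⟩ := mem_filter.1 ht
        rw [← ht2]
        exact (hJ t ht1).le.trans_eq (rl_norm hN _ _)⟩
    rwa [h1] at h2
  have hcl := hC' N (W.image J) hN1 fun j hj => by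
    obtain ⟨t, ht, rfl⟩ := mem_image.1 hj
    have h1 := (hJ t ht).le.trans (rl_DD hN (rl_b_le hN hb _) _)
    rw [div_le_iff₀ (hq0 _)] at h1
    have h2 := (hV1.trans h1).trans (mul_le_mul_of_nonneg_left (rl_q (J t)) (by positivity))
    rw [← mul_div_assoc, le_div_iff₀ (by positivity), one_mul] at h2
    linarith
  have e : (N : ℝ) ^ (2 - 2 * σ + ε) = (N : ℝ) ^ (ε / 2) * (N : ℝ) ^ (2 - 2 * σ + ε / 2) := by
    rw [← Real.rpow_add hN']
    congr 1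
    ring
  rw [card_eq_sum_card_image J W]
  push_cast
  calc _ ≤ (W.image J).card • (C * (N : ℝ) ^ (2 - 2 * σ + ε / 2)) :=
        sum_le_card_nsmul _ _ _ fun j _ => hfib j
    _ ≤ C' * (N : ℝ) ^ (ε / 2) * (C * (N : ℝ) ^ (2 - 2 * σ + ε / 2)) := by
        rw [nsmul_eq_mul]
        exact mul_le_mul_of_nonneg_right hcl (by positivity)
    _ = _ := by rw [e]; ring

end Pool.Agent.Lib.MP_ecd12e_nt.SR
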