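import Pool.Agent.Lib.MP_ecd12e_nt.SR.Fac

/-!
The choice between two neighbouring moments.
-/

set_option autoImplicit false

namespace Pool.Agent.Lib.MP_ecd12e_nt.SR

open Finset Real

theorem interp {α : Type*} (S : Finset α) (u : α → ℝ) (hu : ∀ x, 0 ≤ u x) {R Y Q g X A : ℝ}
    {k j D : ℕ} (hS : (S.card : ℝ) ≤ R ^ 2) (hR : 1 ≤ R) (hRY : R ≤ Y) (hQ : 1 ≤ Q) (hg : 1 < g)
    (hX : 1 ≤ X) (hA : 1 < A) (hk : 1 ≤ k) (hkj : k ≤ j) (hD : 1 ≤ D) (h1 : Y ≤ A ^ (j + 1))
    (h2 : A ^ (j + 1) ≤ g ^ D) (h3 : (g * Q) ^ (k + 1) * R ≤ Y ^ (k + 1))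
    (m1 : ∑ x ∈ S, u x ^ j ≤ X * R * Y) (m2 : ∑ x ∈ S, u x ^ (j + 1) ≤ X * R * A ^ (j + 1)) :
    ∑ x ∈ S, u x ^ (Real.log Q / Real.log A) ≤ 2 * X ^ (1 - 1 / (D : ℝ)) * R * Y := by
  have hR0 : 0 < R := by linarith
  have hY0 : 0 < Y := by linarith
  have hQ0 : 0 < Q := by linarith
  have hA0 : 0 < A := by linarith
  have hg0 : 0 < g := by linarith
  have hX0 : 0 < X := by linarith
  have ha := Real.log_pos hA
  have hγ := Real.log_pos hg
  have hq := Real.log_nonneg hQ
  have hr := Real.log_nonneg hR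
  have hk' : (1 : ℝ) ≤ k := by exact_mod_cast hk
  have hkj' : (k : ℝ) ≤ j := by exact_mod_cast hkj
  have hD' : (1 : ℝ) ≤ D := by exact_mod_cast hD
  have l0 := Real.log_le_log hR0 hRY
  have l1 := Real.log_le_log hY0 h1
  have l2 := Real.log_le_log (pow_pos hA0 _) h2
  have l3 := Real.log_le_log (by positivity) h3
  rw [Real.log_mul (by positivity) hR0.ne', Real.log_pow, Real.log_pow,
    Real.log_mul hg0.ne' hQ0.ne'] at l3
  rw [Real.log_pow] at l1
  rw [Real.log_pow, Real.log_pow] at l2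
  push_cast at l1 l2 l3
  obtain ⟨p, hp⟩ : ∃ p, p = Real.log Q / Real.log A := ⟨_, rfl⟩
  have hp0 : 0 ≤ p := hp ▸ div_nonneg hq ha.le
  have hpa : p * Real.log A = Real.log Q := by rw [hp, div_mul_cancel₀ _ ha.ne']
  rw [← hp]
  obtain ⟨t, ht⟩ : ∃ t, t = p / ((j : ℝ) + 1) := ⟨_, rfl⟩
  have ht0 : 0 ≤ t := ht ▸ div_nonneg hp0 (by linarith)
  have htp : t * (j + 1) = p := by rw [ht, div_mul_cancel₀ _ (by linarith)]
  obtain ⟨δ, hδ⟩ : ∃ δ : ℝ, δ = 1 / D := ⟨_, rfl⟩
  have hδD : δ * D = 1 := by rw [hδ, one_div, inv_mul_cancel₀ (by linarith)]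
  have hδ0 : 0 < δ := by rw [hδ]; positivity
  rw [← hδ]
  have l4 : Real.log g + Real.log Q ≤ Real.log Y := by
    refine le_of_mul_le_mul_left ?_ (show (0 : ℝ) < k + 1 by linarith)
    linarith
  have hja : 0 < (j + 1) * Real.log A := by positivity
  have ht1 : t ≤ 1 - δ := by
    have e1 : δ * ((j + 1) * Real.log A) ≤ Real.log g := by
      calc _ ≤ δ * (D * Real.log g) := mul_le_mul_of_nonneg_left l2 hδ0.le
        _ = _ := by rw [← mul_assoc, hδD, one_mul]
    have e2 : t * ((j + 1) * Real.log A) = Real.log Q := by rw [← mul_assoc, htp, hpa]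
    refine le_of_mul_le_mul_right ?_ hja
    linarith
  rcases le_or_gt (Real.log Q + (1 - t) * Real.log R) (Real.log Y) with hc | hc
  · have h4 := mom_interp S u hu (i := j + 1) (by omega) hp0 (by push_cast; nlinarith)
      (by positivity) (pow_pos hR0 2) hS m2
    refine h4.trans ?_
    push_cast
    rw [← ht, show X * R * A ^ (j + 1) / R ^ 2 = X * (A ^ (j + 1) / R) by field_simp,
      Real.mul_rpow hX0.le (by positivity)]
    have e1 : X ^ t ≤ X ^ (1 - δ) := Real.rpow_le_rpow_of_exponent_le hX ht1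
    have e2 : R * (A ^ (j + 1) / R) ^ t ≤ Y := by
      rw [← Real.log_le_log_iff (by positivity) hY0, Real.log_mul hR0.ne' (by positivity),
        Real.log_rpow (by positivity), Real.log_div (by positivity) hR0.ne', Real.log_pow]
      push_cast
      have e3 : t * ((j + 1) * Real.log A) = Real.log Q := by rw [← mul_assoc, htp, hpa]
      linarith
    calc 2 * R ^ 2 * (X ^ t * (A ^ (j + 1) / R) ^ t)
        = 2 * X ^ t * R * (R * (A ^ (j + 1) / R) ^ t) := by ring
      _ ≤ _ := by gcongr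
  · have hj0 : (0 : ℝ) < j := by linarith
    have e1 : δ * Real.log R ≤ Real.log g := by
      calc _ ≤ δ * (D * Real.log g) := mul_le_mul_of_nonneg_left (by linarith) hδ0.le
        _ = _ := by rw [← mul_assoc, hδD, one_mul]
    have e2 : (k + 1) * (t + δ) * Real.log R < k * Real.log R := by
      have e3 := mul_lt_mul_of_pos_left hc (show (0 : ℝ) < k + 1 by linarith)
      have e4 := mul_le_mul_of_nonneg_left e1 (show (0 : ℝ) ≤ k + 1 by linarith)
      linarith
    have e3 : (k + 1) * (t + δ) < k := lt_of_mul_lt_mul_right e2 hr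
    have e4 : p / j ≤ 1 - δ := by
      rw [div_le_iff₀ hj0, ← htp]
      refine le_of_mul_le_mul_left ?_ (show (0 : ℝ) < k + 1 by linarith)
      have e5 := mul_le_mul_of_nonneg_left e3.le (show (0 : ℝ) ≤ j + 1 by linarith)
      have e6 : 0 ≤ (k + 1) * δ := by positivity
      linarith
    have e5 : p / j ≤ 1 := by linarith
    have h4 := mom_interp S u hu (i := j) (by omega) hp0 ((div_le_one hj0).1 e5)
      (by positivity) (pow_pos hR0 2) hS m1
    refine h4.trans ?_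
    rw [show X * R * Y / R ^ 2 = X * (Y / R) by field_simp, Real.mul_rpow hX0.le (by positivity)]
    have e6 : X ^ (p / j) ≤ X ^ (1 - δ) := Real.rpow_le_rpow_of_exponent_le hX e4
    have e7 : (Y / R) ^ (p / j) ≤ Y / R :=
      (Real.rpow_le_rpow_of_exponent_le ((one_le_div hR0).2 hRY) e5).trans_eq (Real.rpow_one _)
    calc 2 * R ^ 2 * (X ^ (p / j) * (Y / R) ^ (p / j)) ≤ 2 * R ^ 2 * (X ^ (1 - δ) * (Y / R)) := by
          gcongr
      _ = _ := by field_simp

end Pool.Agent.Lib.MP_ecd12e_nt.SR
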