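import Pool.Agent.Lib.MP_ecd12e_nt.SR.Boot
import Pool.Agent.Lib.MP_ecd12e_nt.DH.Mom

/-!
The moment of the dual sum over differences, and the Gram inequality.
-/

set_option autoImplicit false

namespace Pool.Agent.Lib.MP_ecd12e_nt.SR

open Finset Real
open Pool.Agent.Lib.MP_ecd12e_nt.Bar (ei)
open Pool.Agent.Lib.MP_ecd12e_nt.Sch Pool.Agent.Lib.MP_ecd12e_nt.DH

theorem mom_kr {w : ℝ → ℝ} (hw : Sm w) :
    ∃ C : ℝ, 0 ≤ C ∧ ∀ (N M : ℕ) (T P Y G : ℝ) (y k : ℕ) (W : Finset ℤ), 1 ≤ N → 1 ≤ M → 1 ≤ k →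
      Loss T P → 2 * M ≤ y → (y : ℝ) ^ k ≤ Y → Y ≤ T ^ 2 → (M : ℝ) ≤ T → 0 ≤ G → Ok W y T Y G →
      ∑ p ∈ W ×ˢ W, ‖kr w N M (p.1 - p.2)‖ ^ (2 * k) ≤
        (C * P ^ 4 * N) ^ k * (2 * G * Y) * W.card := by
  obtain ⟨C, hC, hm⟩ := kr_mom hw
  refine ⟨2 * C ^ 2, by positivity, fun N M T P Y G y k W hN hM hk hL hy hyY hYT hMT hG hok => ?_⟩
  have hP := hL.one_le
  have hY : 0 ≤ Y := le_trans (by positivity) hyY
  have hy' : 2 * (M : ℝ) ≤ y := by exact_mod_cast hy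
  have h1 := hm N M (2 * k) T P ((P ^ k) ^ 2 * 2 ^ k * (2 * G * Y) * W.card) (ℤ × ℤ) (W ×ˢ W)
    (fun p => p.1 - p.2) hN hM (by omega) hL hMT (by positivity)
    (fun Q I d hQ hQM hI hd => by
      have e1 : (2 * Q) ^ k ≤ Y := (pow_le_pow_left₀ (by linarith) (by linarith) k).trans hyY
      have e2 := ok_pow hL hok (I := I) (B := 2 * Q) (by linarith) (fun m hm => by
        have a1 := (hI m hm).1
        have a2 := (hI m hm).2
        refine ⟨?_, ?_, a2⟩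
        · exact_mod_cast hQ.trans a1
        · exact_mod_cast (show (m : ℝ) ≤ y by linarith)) hd (e1.trans hYT)
      rw [sum_product, pow_mul (√Q), Real.sq_sqrt (by linarith)]
      refine e2.trans ?_
      calc _ ≤ (P ^ k) ^ 2 * (G * (2 * Q) ^ k * (W.card * (Y + Y))) := by gcongr
        _ = _ := by rw [mul_pow]; ring)
  refine h1.trans_eq ?_
  rw [pow_mul, mul_pow (C * P), Real.sq_sqrt (Nat.cast_nonneg N)]
  simp only [mul_pow, ← pow_mul]
  ring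

theorem low {w : ℝ → ℝ} (hw : Wt w) :
    ∃ C : ℝ, 0 ≤ C ∧ ∀ (N M k : ℕ) (T V e0 A : ℝ) (b : ℕ → ℂ) (W : Finset ℤ), 1 ≤ N → 1 ≤ k →
      0 ≤ V → 0 ≤ e0 → 0 ≤ T → (T + 1) * e0 ≤ N → LV N T V b W → W.Nonempty →
      (∀ t : ℤ, |(t : ℝ)| ≤ T → ‖gg w N t - N * ff w t 0 - kr w N M t‖ ≤ e0) →
      ∑ p ∈ W ×ˢ W, ‖kr w N M (p.1 - p.2)‖ ^ (2 * k) ≤ A * W.card →
      W.card * V ^ 2 ≤ C * (N : ℝ) ^ 2 ∨ W.card * V ^ (4 * k) ≤ (4 * N) ^ (2 * k) * A := by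
  obtain ⟨C, hC, h⟩ := gram_low hw
  refine ⟨4 * (C + 1), by positivity, fun N M k T V e0 A b W hN hk hV he0 hT he hL hW happ hA => ?_⟩
  obtain ⟨η, h1, h2⟩ := h N M T V e0 b W hN he0 hV hL happ
  have hN0 : (0 : ℝ) < N := by exact_mod_cast hN
  have hR : (0 : ℝ) < W.card := by exact_mod_cast hW.card_pos
  have h4 : W.card * e0 ≤ N :=
    (mul_le_mul_of_nonneg_right (card_le_of_inR hT hL.inr) he0).trans he
  have h5 : (∑ s ∈ W, ∑ s' ∈ W, (starRingEnd ℂ) (η s) * kr w N M (s - s') * η s').re ≤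
      ∑ p ∈ W ×ˢ W, ‖kr w N M (p.1 - p.2)‖ := by
    rw [sum_product]
    refine (Complex.re_le_norm _).trans (norm_sum_le_of_le _ fun s _ =>
      norm_sum_le_of_le _ fun s' _ => le_of_eq ?_)
    rw [norm_mul, norm_mul, Complex.norm_conj, h1, h1, one_mul, mul_one]
  refine (le_total _ _).imp_right fun h6 => ?_
  have h7 : W.card * V ^ 2 / (4 * N) * W.card ≤ ∑ p ∈ W ×ˢ W, ‖kr w N M (p.1 - p.2)‖ := by
    refine le_trans (mul_le_mul_of_nonneg_right ?_ hR.le) (h2.trans h5)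
    have e1 : (C + 1) * N ≤ W.card * V ^ 2 / (4 * N) := by
      rw [le_div_iff₀ (by positivity)]
      linarith
    have e2 : W.card * V ^ 2 / (2 * N) = 2 * (W.card * V ^ 2 / (4 * N)) := by
      field_simp
      ring
    linarith
  obtain ⟨n, hn⟩ : ∃ n, 2 * k = n + 1 := ⟨2 * k - 1, by omega⟩
  have h8 := pow_sum_le_card_mul_sum_pow (s := W ×ˢ W)
    (f := fun p => ‖kr w N M (p.1 - p.2)‖) (fun _ _ => norm_nonneg _) n
  rw [show 4 * k = 2 * (2 * k) by ring, hn]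
  rw [hn] at hA
  have h9 := ((pow_le_pow_left₀ (by positivity) h7 _).trans h8).trans
    (mul_le_mul_of_nonneg_left hA (by positivity))
  rw [card_product, div_mul_eq_mul_div, div_pow, div_le_iff₀ (by positivity)] at h9
  push_cast at h9
  refine le_of_mul_le_mul_right ?_ (show 0 < ((W.card : ℝ) * W.card) ^ n * W.card by positivity)
  calc _ = (W.card * V ^ 2 * W.card) ^ (n + 1) := by
        simp only [mul_pow, ← pow_mul]
        ring
    _ ≤ _ := h9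
    _ = _ := by ring

end Pool.Agent.Lib.MP_ecd12e_nt.SR
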