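import Pool.Agent.Lib.MP_ecd12e_nt.SR.Pw

/-!
The double zeta sum over a short set of smooth numbers.
-/

set_option autoImplicit false

namespace Pool.Agent.Lib.MP_ecd12e_nt.SR

open Finset Real
open Pool.Agent.Lib.MP_ecd12e_nt.Bar (ei)
open Pool.Agent.Lib.MP_ecd12e_nt.Sch Pool.Agent.Lib.MP_ecd12e_nt.DH

lemma Par.yT {T P H Y g z R : ℝ} {y k D J0 : ℕ} (h : Par T P H Y g z R y k D J0) :
    1 ≤ y ∧ (y : ℝ) ≤ T ^ 2 ∧ Y ≤ T ^ 2 ∧ 2 * H / Y ≤ Y := by
  have hz := h.hz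
  have hY : 1 ≤ Y := h.hR.trans h.hRY
  have h1 : (1 : ℝ) ≤ y := by nlinarith [h.hzy]
  have h2 : Y * y ≤ T ^ 2 :=
    (le_mul_of_one_le_left (by positivity) (one_le_pow₀ (by norm_num))).trans h.hYT
  have h3 : 0 ≤ 2 * H / Y := by have := h.hH; positivity
  have h4 : g * (2 * H / Y) ≤ Y := le_of_pow_le_pow_left₀ (Nat.succ_ne_zero k) (by linarith)
    ((le_mul_of_one_le_right (pow_nonneg (mul_nonneg (by linarith [h.hg]) h3) _) h.hR).trans h.hm)
  exact ⟨by exact_mod_cast h1, by nlinarith, by nlinarith, by nlinarith [h.hg]⟩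

/-- One class of factorisations. -/
theorem one_class {T P H Y g z G A B : ℝ} {y k D J0 : ℕ} {W : Finset ℤ}
    (h : Par T P H Y g z W.card y k D J0) (hG : 1 ≤ G) (hok : Ok W y T Y G)
    (hB : B = 2 * (2 * (4 * P ^ 2) ^ (J0 + 1) * G) ^ (1 - 1 / (D : ℝ)) * W.card * Y)
    (hA : 0 < A) (hAQ : 2 * A < 2 * H / Y) {J : Finset ℕ} (f : ℕ → Fin (J0 + 1) → ℕ)
    (κ : Fin (J0 + 1) → ℕ)
    (hf : ∀ n ∈ J, (n : ℝ) ≤ 2 * A ∧ ∏ i, f n i = n ∧ (∀ i, 1 ≤ f n i ∧ f n i ≤ y) ∧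
      (∀ i, i ≠ 0 → f n i = 1 ∨ y < f n i ^ 2) ∧ ∀ i, Nat.log 2 (f n i) = κ i) :
    ds W J ≤ 2 * A * z * ((J0 + 2) * B) := by
  have hP := h.loss.one_le
  have hR := h.hR
  have hz := h.hz
  have hY : 1 ≤ Y := hR.trans h.hRY
  have hD : (1 : ℝ) ≤ D := by exact_mod_cast h.hD
  have hX : 1 ≤ (2 * (4 * P ^ 2) ^ (J0 + 1) * G) ^ (1 - 1 / (D : ℝ)) := by
    refine Real.one_le_rpow ?_ (sub_nonneg.2 ((div_le_one (by linarith)).2 hD))
    have e1 : 1 ≤ (4 * P ^ 2) ^ (J0 + 1) := one_le_pow₀ (by nlinarith)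
    nlinarith
  have hRB : (W.card : ℝ) * W.card ≤ B := by
    have e1 : (W.card : ℝ) * W.card ≤ W.card * Y := mul_le_mul_of_nonneg_left h.hRY (by linarith)
    have e2 := mul_le_mul_of_nonneg_right hX (show 0 ≤ (W.card : ℝ) * Y by positivity)
    rw [hB]
    nlinarith
  have hB0 : 0 ≤ B := le_trans (by positivity) hRB
  rcases J.eq_empty_or_nonempty with rfl | ⟨n0, hn0⟩
  · simp only [ds, sum_empty]
    positivity
  obtain ⟨a1, a2, a3, a4, a5⟩ := hf n0 hn0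
  have hlo : ∀ n ∈ J, ∀ i, 2 ^ κ i ≤ f n i ∧ f n i < 2 ^ (κ i + 1) := fun n hn i => by
    obtain ⟨-, -, b3, -, b5⟩ := hf n hn
    rw [← b5 i]
    exact ⟨Nat.pow_log_le_self 2 (by have := (b3 i).1; omega), Nat.lt_pow_succ_log_self one_lt_two _⟩
  have hpr : ∏ i, (2 : ℝ) ^ κ i ≤ 2 * A := by
    refine le_trans ?_ a1
    rw [← a2, Nat.cast_prod]
    exact prod_le_prod (fun _ _ => by positivity) fun i _ => by exact_mod_cast (hlo n0 hn0 i).1
  have hone : ∀ i, (1 : ℝ) ≤ 2 ^ κ i := fun i => one_le_pow₀ (by norm_num)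
  have hQ : 1 < 2 * H / Y := ((one_le_prod fun i _ => hone i).trans hpr).trans_lt hAQ
  obtain ⟨Bg, hBg⟩ : ∃ Bg, Bg = univ.filter fun i => z ≤ (2 : ℝ) ^ κ i := ⟨_, rfl⟩
  have hbig : ∀ i ∈ Bg, z ≤ (2 : ℝ) ^ κ i := fun i hi => by
    rw [hBg] at hi
    exact (mem_filter.1 hi).2
  have hpb : ∏ i ∈ Bg, (2 : ℝ) ^ κ i ≤ 2 * H / Y :=
    ((prod_le_prod_of_subset_of_one_le (subset_univ _) (fun _ _ => by positivity)
      fun i _ _ => hone i).trans hpr).trans hAQ.le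
  have h1 := tup_inj W (Fintype.piFinset fun i => blkI y (κ i)) (fun g => ∏ i, g i) J f
    fun n hn => ⟨Fintype.mem_piFinset.2 fun i => mem_filter.2
      ⟨mem_Ico.2 (hlo n hn i), ((hf n hn).2.2.1 i).2⟩, (hf n hn).2.1⟩
  have h2 : ∀ t : ℝ, ∑ g ∈ Fintype.piFinset fun i => blkI y (κ i),
      ei (t * Real.log ((∏ i, g i : ℕ) : ℝ)) = ∏ i, dp (blkI y (κ i)) (fun _ => 1) t := fun t => by
    simp only [dp, one_mul]
    rw [prod_univ_sum]
    refine sum_congr rfl fun g hg => (prod_ei _ _ (fun i _ => ?_) t).symm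
    exact (Nat.two_pow_pos _).trans_le
      (mem_Ico.1 (mem_filter.1 (Fintype.mem_piFinset.1 hg i)).1).1
  have h3 : ∀ p : ℤ × ℤ, ‖∏ i, dp (blkI y (κ i)) (fun _ => 1) ((p.1 - p.2 : ℤ) : ℝ)‖ ^ 2 ≤
      2 * A * z * (1 + ∑ i ∈ Bg,
        uu y (κ i) p ^ (Real.log (2 * H / Y) / Real.log (2 ^ κ i))) := fun p => by
    have e1 : ‖∏ i, dp (blkI y (κ i)) (fun _ => 1) ((p.1 - p.2 : ℤ) : ℝ)‖ ^ 2 =
        (∏ i, (2 : ℝ) ^ κ i) * ∏ i, uu y (κ i) p := by
      rw [norm_prod, ← prod_pow, ← prod_mul_distrib]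
      refine prod_congr rfl fun i _ => ?_
      rw [uu, mul_div_cancel₀ _ (by positivity)]
    have e2 : ∏ i, uu y (κ i) p ≤ z * ∏ i ∈ Bg, uu y (κ i) p := by
      have e3 : ∀ i, uu y (κ i) p ≤ (if i = 0 then z else 1) *
          if z ≤ (2 : ℝ) ^ κ i then uu y (κ i) p else 1 := fun i => by
        by_cases c1 : z ≤ (2 : ℝ) ^ κ i
        · rw [if_pos c1]
          refine le_mul_of_one_le_left (uu_nonneg _ _ _) ?_
          split_ifs <;> linarith
        · rw [if_neg c1, mul_one]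
          refine (uu_le _ _ _).trans ?_
          by_cases c2 : i = 0
          · rw [if_pos c2]
            exact (not_le.1 c1).le
          · rw [if_neg c2]
            rcases a4 i c2 with c3 | c3
            · rw [← a5 i, c3]
              simp
            · have c4 : (y : ℝ) < (f n0 i : ℝ) ^ 2 := by exact_mod_cast c3
              have c5 : (f n0 i : ℝ) < 2 ^ κ i * 2 := by exact_mod_cast (hlo n0 hn0 i).2
              have c6 : (0 : ℝ) ≤ f n0 i := Nat.cast_nonneg _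
              have c7 := not_le.1 c1
              nlinarith [h.hzy]
      refine (prod_le_prod (fun i _ => uu_nonneg _ _ _) fun i _ => e3 i).trans_eq ?_
      rw [prod_mul_distrib, hBg, prod_filter]
      simp
    have e3 := prod_le_pows Bg (fun i => (2 : ℝ) ^ κ i) (fun i => uu y (κ i) p) hQ
      (fun i hi => by linarith [hbig i hi]) (fun i _ => uu_nonneg _ _ _) hpb
    rw [e1, mul_assoc]
    exact mul_le_mul hpr (e2.trans (mul_le_mul_of_nonneg_left e3 (by linarith)))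
      (prod_nonneg fun i _ => uu_nonneg _ _ _) (by linarith)
  simp only [h2] at h1
  rw [← sum_product'] at h1
  refine h1.trans ((sum_le_sum fun p _ => h3 p).trans ?_)
  rw [← mul_sum, sum_add_distrib, sum_comm, sum_const, card_product, nsmul_eq_mul, mul_one]
  refine mul_le_mul_of_nonneg_left ?_ (by positivity)
  have h4 : ∑ i ∈ Bg, ∑ p ∈ W ×ˢ W,
      uu y (κ i) p ^ (Real.log (2 * H / Y) / Real.log (2 ^ κ i)) ≤ Bg.card • B :=
    sum_le_card_nsmul _ _ _ fun i hi => (one_fac h hG hok hQ.le (hbig i hi)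
      ((hlo n0 hn0 i).1.trans (a3 i).2)).trans_eq hB.symm
  have h5 : (Bg.card : ℝ) ≤ J0 + 1 := by
    have := card_le_univ Bg
    rw [Fintype.card_fin] at this
    exact_mod_cast this
  rw [nsmul_eq_mul] at h4
  push_cast
  nlinarith [mul_le_mul_of_nonneg_right h5 hB0]

theorem prod_bd {T P H Y g z G A B : ℝ} {y k D J0 : ℕ} {W : Finset ℤ}
    (h : Par T P H Y g z W.card y k D J0) (hG : 1 ≤ G) (hok : Ok W y T Y G)
    (hB : B = 2 * (2 * (4 * P ^ 2) ^ (J0 + 1) * G) ^ (1 - 1 / (D : ℝ)) * W.card * Y)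
    (hA : 0 < A) (hAQ : 2 * A < 2 * H / Y) {J : Finset ℕ} (hJ : InI J A 2)
    (hs : ∀ n ∈ J, Smo y n) :
    ds W J ≤ (P ^ (J0 + 1)) ^ 2 * (2 * A * z * ((J0 + 2) * B)) := by
  obtain ⟨y1, y2, -, y4⟩ := h.yT
  have hz := h.hz
  have hP := h.loss.one_le
  have hex : ∀ n : ℕ, ∃ f : ℕ → ℕ, n ∈ J → ∏ i ∈ range (J0 + 1), f i = n ∧
      (∀ i, 1 ≤ f i ∧ f i ≤ y) ∧ ∀ i, i ≠ 0 → f i = 1 ∨ y < f i ^ 2 := fun n => by
    by_cases hn : n ∈ J
    · have e1 : (0 : ℝ) < n := hA.trans_le (hJ n hn).1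
      obtain ⟨f, hf⟩ := fac y1 J0 n (by exact_mod_cast e1) (hs n hn) (by
        have e2 : (n : ℝ) ≤ z ^ J0 := by linarith [(hJ n hn).2, h.hYz]
        have e3 : (n : ℝ) ^ 2 ≤ (y : ℝ) ^ (J0 + 2) := by
          calc (n : ℝ) ^ 2 ≤ (z ^ J0) ^ 2 := pow_le_pow_left₀ e1.le e2 2
            _ = (z ^ 2) ^ J0 := by rw [← pow_mul, ← pow_mul, mul_comm]
            _ ≤ (y : ℝ) ^ J0 := pow_le_pow_left₀ (sq_nonneg z) (by nlinarith [h.hzy]) J0
            _ ≤ _ := pow_le_pow_right₀ (by exact_mod_cast y1) (by omega)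
        exact_mod_cast e3)
      exact ⟨f, fun _ => hf⟩
    · exact ⟨fun _ => 0, fun e => absurd e hn⟩
  choose f hf using hex
  obtain ⟨K, hK⟩ : ∃ K, K = Fintype.piFinset fun _ : Fin (J0 + 1) => range (Nat.log 2 y + 1) :=
    ⟨_, rfl⟩
  have h1 := tup_split W J K (fun n i => Nat.log 2 (f n i)) fun n hn =>
    hK ▸ Fintype.mem_piFinset.2 fun i =>
      mem_range.2 (Nat.lt_succ_of_le (Nat.log_mono_right ((hf n hn).2.1 i).2))
  have h2 : (K.card : ℝ) ≤ P ^ (J0 + 1) := by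
    rw [hK, Fintype.card_piFinset_const, card_range, Nat.cast_pow]
    exact pow_le_pow_left₀ (Nat.cast_nonneg _) (log_le h.loss y2) _
  have h3 := sum_le_card_nsmul K
    (fun κ => ds W (J.filter fun n => (fun i : Fin (J0 + 1) => Nat.log 2 (f n i)) = κ)) _
    fun κ _ => one_class h hG hok hB hA hAQ (fun n i => f n i) κ fun n hn => by
      obtain ⟨e1, e2⟩ := mem_filter.1 hn
      obtain ⟨e3, e4, e5⟩ := hf n e1
      exact ⟨(hJ n e1).2, (Fin.prod_univ_eq_prod_range (f n) _).trans e3, fun i => e4 i,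
        fun i hi => e5 i fun e => hi (Fin.ext e), fun i => congrFun e2 i⟩
  have h4 : 0 ≤ 2 * A * z * ((J0 + 2) * B) := by
    have := h.hR.trans h.hRY
    rw [hB]
    positivity
  rw [nsmul_eq_mul] at h3
  refine h1.trans ((mul_le_mul_of_nonneg_left h3 (Nat.cast_nonneg _)).trans ?_)
  rw [← mul_assoc, ← sq]
  gcongr

end Pool.Agent.Lib.MP_ecd12e_nt.SR
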