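import Pool.Agent.Lib.MP_ecd12e_nt.SR.Tup
import Pool.Agent.Lib.MP_ecd12e_nt.SR.Int

/-!
Moments of short zeta sums over differences from a bound for smooth sets.
-/

set_option autoImplicit false

namespace Pool.Agent.Lib.MP_ecd12e_nt.SR

open Finset Real
open Pool.Agent.Lib.MP_ecd12e_nt.Bar (ei)
open Pool.Agent.Lib.MP_ecd12e_nt.Sch Pool.Agent.Lib.MP_ecd12e_nt.DH

/-- The bound with constant `G` for all sets of smooth numbers. -/
def Ok (W : Finset ℤ) (y : ℕ) (T Y G : ℝ) : Prop :=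
  ∀ (L : ℝ) (J : Finset ℕ), 0 < L → L ≤ T ^ 2 → (∀ n ∈ J, 1 ≤ n ∧ (n : ℝ) ≤ L ∧ Smo y n) →
    ds W J ≤ G * L * (W.card * (Y + L))

/-- The conditions on the parameters. -/
structure Par (T P H Y g z R : ℝ) (y k D J0 : ℕ) : Prop where
  loss : Loss T P
  hH : 1 ≤ H
  hR : 1 ≤ R
  hRY : R ≤ Y
  hk : 1 ≤ k
  hD : 1 ≤ D
  hg : 1 < g
  hz : 2 ≤ z
  hyY : (y : ℝ) ^ k ≤ Y
  hzy : 4 * z ^ 2 ≤ y
  hYz : Y ≤ z ^ J0
  hYg : Y * y ≤ g ^ D
  hYT : 2 ^ (J0 + 1) * (Y * y) ≤ T ^ 2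
  hm : (g * (2 * H / Y)) ^ (k + 1) * R ≤ Y ^ (k + 1)

lemma log_le {T P : ℝ} (hP : Loss T P) {M : ℕ} (hMT : (M : ℝ) ≤ T ^ 2) :
    ((Nat.log 2 M + 1 : ℕ) : ℝ) ≤ P := by
  push_cast
  rcases Nat.eq_zero_or_pos M with rfl | hM
  · simpa using hP.one_le
  have h1 : ((2 : ℝ) ^ Nat.log 2 M) ≤ M := by exact_mod_cast Nat.pow_log_le_self 2 hM.ne'
  have T0 : 0 < T := zero_lt_one.trans_le hP.hT
  have h2 := Real.log_le_log (by positivity) (h1.trans hMT)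
  have h3 := hP.lg
  have h4 := Real.log_nonneg (x := 100) (by norm_num)
  have h5 := Real.log_two_gt_d9
  have h6 : (0 : ℝ) ≤ Nat.log 2 M := Nat.cast_nonneg _
  rw [Real.log_mul (by norm_num) (by positivity), Real.log_pow] at h3
  rw [Real.log_pow, Real.log_pow] at h2
  push_cast at h2 h3
  nlinarith

lemma prod_ei {ι : Type*} (s : Finset ι) (f : ι → ℕ) (hf : ∀ i ∈ s, 1 ≤ f i) (t : ℝ) :
    ∏ i ∈ s, ei (t * Real.log (f i)) = ei (t * Real.log ((∏ i ∈ s, f i : ℕ) : ℝ)) := by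
  rw [Nat.cast_prod, Real.log_prod fun i hi => Nat.cast_ne_zero.2 (by have := hf i hi; omega),
    mul_sum]
  simp only [ei, ← Complex.exp_sum, ← sum_mul, Complex.ofReal_sum]

theorem ok_pow {T P Y G B : ℝ} {W : Finset ℤ} {y : ℕ} (h : Loss T P) (hok : Ok W y T Y G)
    {I : Finset ℕ} (hB : 0 < B) (hI : ∀ m ∈ I, 1 ≤ m ∧ m ≤ y ∧ (m : ℝ) ≤ B) {d : ℕ → ℂ}
    (hd : ∀ m, ‖d m‖ ≤ 1) {i : ℕ} (hi : B ^ i ≤ T ^ 2) :
    ∑ s ∈ W, ∑ s' ∈ W, ‖dp I d ((s - s' : ℤ) : ℝ)‖ ^ (2 * i) ≤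
      (P ^ i) ^ 2 * (G * B ^ i * (W.card * (Y + B ^ i))) := by
  have hP := h.one_le
  obtain ⟨X, hX⟩ : ∃ X, X = Fintype.piFinset fun _ : Fin i => I := ⟨_, rfl⟩
  have hm : ∀ f ∈ X, ∀ a, f a ∈ I := fun f hf => Fintype.mem_piFinset.1 (hX ▸ hf)
  have h1 : ∀ t : ℝ, dp I d t ^ i =
      ∑ f ∈ X, (∏ a, d (f a)) * ei (t * Real.log ((∏ a, f a : ℕ) : ℝ)) := fun t => by
    rw [dp, sum_pow', ← hX]
    refine sum_congr rfl fun f hf => ?_
    rw [prod_mul_distrib, prod_ei _ _ fun a _ => (hI _ (hm f hf a)).1]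
  have h2 : ∀ n : ℕ, n ∈ (X.image fun f => ∏ a, f a) → 1 ≤ n ∧ (n : ℝ) ≤ B ^ i ∧ Smo y n :=
      fun n hn => by
    obtain ⟨f, hf, rfl⟩ := mem_image.1 hn
    refine ⟨Nat.succ_le_of_lt (prod_pos fun a _ => (hI _ (hm f hf a)).1), ?_,
      smo_prod _ _ fun a _ => ⟨(hI _ (hm f hf a)).1, (hI _ (hm f hf a)).2.1⟩⟩
    rw [Nat.cast_prod]
    refine (prod_le_prod (fun _ _ => Nat.cast_nonneg _)
      fun a _ => (hI _ (hm f hf a)).2.2).trans_eq ?_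
    rw [prod_const, card_univ, Fintype.card_fin]
  have h3 := tup_fib W X (fun f => ∏ a, f a) (X.image fun f => ∏ a, f a)
    (fun f hf => mem_image_of_mem _ hf) (D := P ^ i) (by positivity) fun n hn => by
      obtain ⟨e1, e2, -⟩ := h2 n hn
      have e3 : n ≠ 0 := by omega
      have e4 : (X.filter fun f => ∏ a, f a = n) ⊆
          Fintype.piFinset fun _ : Fin i => n.divisors := fun f hf =>
        Fintype.mem_piFinset.2 fun a => Nat.mem_divisors.2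
          ⟨(mem_filter.1 hf).2 ▸ dvd_prod_of_mem f (mem_univ a), e3⟩
      have e5 := card_le_card e4
      rw [Fintype.card_piFinset_const] at e5
      have e6 : T ^ 2 ≤ T ^ 4 := pow_le_pow_right₀ h.hT (by norm_num)
      have e7 := h.tau n e3 (by nlinarith [sq_nonneg T])
      calc _ ≤ (n.divisors.card : ℝ) ^ i := by exact_mod_cast e5
        _ ≤ _ := pow_le_pow_left₀ (Nat.cast_nonneg _) e7 i
  have h4 := tup_up W X (fun f => Real.log ((∏ a, f a : ℕ) : ℝ)) (fun f => ∏ a, d (f a))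
    fun f _ => by
      rw [norm_prod]
      exact prod_le_one (fun _ _ => norm_nonneg _) fun a _ => hd _
  refine le_trans (le_of_eq ?_) (h4.trans (h3.trans (mul_le_mul_of_nonneg_left
    (hok _ _ (pow_pos hB i) hi h2) (sq_nonneg _))))
  simp only [← h1, norm_pow, ← pow_mul, mul_comm i 2]

/-- The integers of a dyadic block up to `y`. -/
def blkI (y κ : ℕ) : Finset ℕ := (Ico (2 ^ κ) (2 ^ (κ + 1))).filter fun m => m ≤ y

/-- The normalised square of the zeta sum over a block. -/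
noncomputable def uu (y κ : ℕ) (p : ℤ × ℤ) : ℝ :=
  ‖dp (blkI y κ) (fun _ => 1) ((p.1 - p.2 : ℤ) : ℝ)‖ ^ 2 / 2 ^ κ

lemma uu_nonneg (y κ : ℕ) (p : ℤ × ℤ) : 0 ≤ uu y κ p := by
  unfold uu
  positivity

lemma uu_le (y κ : ℕ) (p : ℤ × ℤ) : uu y κ p ≤ 2 ^ κ := by
  have h1 : ‖dp (blkI y κ) (fun _ => 1) ((p.1 - p.2 : ℤ) : ℝ)‖ ≤ 2 ^ κ := by
    refine (norm_sum_le _ _).trans ?_
    simp only [one_mul, Bar.norm_ei, sum_const, nsmul_eq_mul, mul_one]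
    have h2 : (blkI y κ).card ≤ 2 ^ κ := (card_filter_le _ _).trans (by
      rw [Nat.card_Ico, pow_succ]
      omega)
    exact_mod_cast h2
  rw [uu, div_le_iff₀ (by positivity), ← sq]
  exact pow_le_pow_left₀ (norm_nonneg _) h1 2

theorem one_fac {T P H Y g z G : ℝ} {y k D J0 : ℕ} {W : Finset ℤ}
    (h : Par T P H Y g z W.card y k D J0) (hG : 1 ≤ G) (hok : Ok W y T Y G)
    (hQ : 1 ≤ 2 * H / Y) {κ : ℕ} (h1 : z ≤ 2 ^ κ) (h2 : 2 ^ κ ≤ y) :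
    ∑ p ∈ W ×ˢ W, uu y κ p ^ (Real.log (2 * H / Y) / Real.log (2 ^ κ)) ≤
      2 * (2 * (4 * P ^ 2) ^ (J0 + 1) * G) ^ (1 - 1 / (D : ℝ)) * W.card * Y := by
  have hP := h.loss.one_le
  have hR := h.hR
  have hz := h.hz
  have hY : 1 ≤ Y := hR.trans h.hRY
  obtain ⟨a, ha⟩ : ∃ a : ℕ, a = 2 ^ κ := ⟨_, rfl⟩
  have ha' : (2 : ℝ) ^ κ = a := by rw [ha]; push_cast; rfl
  rw [← ha] at h2
  rw [ha'] at h1 ⊢
  have ha1 : (1 : ℝ) < a := by linarith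
  have ha2 : 1 < a := by exact_mod_cast ha1
  have hay : (a : ℝ) ≤ y := by exact_mod_cast h2
  have hf : ⌊Y⌋₊ ≠ 0 := (Nat.floor_pos.2 hY).ne'
  obtain ⟨j, hj⟩ : ∃ j, j = Nat.log a ⌊Y⌋₊ := ⟨_, rfl⟩
  have j1 : (a : ℝ) ^ j ≤ Y := le_trans (by exact_mod_cast hj ▸ Nat.pow_log_le_self a hf)
    (Nat.floor_le (by linarith))
  have j2 : Y ≤ (a : ℝ) ^ (j + 1) := (Nat.lt_floor_add_one Y).le.trans
    (by exact_mod_cast hj ▸ Nat.lt_pow_succ_log_self ha2 ⌊Y⌋₊)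
  have j3 : k ≤ j := hj ▸ Nat.le_log_of_pow_le ha2 (Nat.le_floor (by
    push_cast
    exact (pow_le_pow_left₀ (by linarith) hay k).trans h.hyY))
  have j4 : j ≤ J0 := (pow_le_pow_iff_right₀ (show 1 < z by linarith)).1
    (((pow_le_pow_left₀ (by linarith) h1 j).trans j1).trans h.hYz)
  have j5 : (a : ℝ) ^ (j + 1) ≤ Y * y := by
    rw [pow_succ]
    exact mul_le_mul j1 hay (by linarith) (by linarith)
  have hP4 : 1 ≤ 4 * P ^ 2 := by nlinarith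
  have mom : ∀ i, i ≤ j + 1 → ∑ p ∈ W ×ˢ W, uu y κ p ^ i ≤
      (4 * P ^ 2) ^ (J0 + 1) * G * W.card * (Y + (a : ℝ) ^ i) := fun i hi => by
    have e0 : (1 : ℝ) ≤ 2 ^ i := one_le_pow₀ (by norm_num)
    have e1 := ok_pow h.loss hok (I := blkI y κ) (B := 2 * a) (by linarith) (fun m hm => by
      obtain ⟨a1, a2⟩ := mem_filter.1 hm
      obtain ⟨a3, a4⟩ := mem_Ico.1 a1
      rw [pow_succ', ← ha] at a4
      exact ⟨(Nat.two_pow_pos κ).trans_le a3, a2, by exact_mod_cast a4.le⟩)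
      (d := fun _ => 1) (fun _ => norm_one.le) (i := i) (by
        refine le_trans ?_ h.hYT
        rw [mul_pow]
        exact mul_le_mul (pow_le_pow_right₀ (by norm_num) (by omega))
          ((pow_le_pow_right₀ ha1.le hi).trans j5) (by positivity) (by positivity))
    simp only [uu, div_pow, ← pow_mul, ← sum_div]
    rw [sum_product, pow_mul (2 : ℝ) κ i, ha', div_le_iff₀ (by positivity)]
    refine e1.trans ?_
    have e2 : Y + (2 * (a : ℝ)) ^ i ≤ 2 ^ i * (Y + (a : ℝ) ^ i) := by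
      rw [mul_pow]
      nlinarith
    have e3 : (4 * P ^ 2) ^ i ≤ (4 * P ^ 2) ^ (J0 + 1) := pow_le_pow_right₀ hP4 (by omega)
    calc _ ≤ (P ^ i) ^ 2 * (G * (2 * (a : ℝ)) ^ i * (W.card * (2 ^ i * (Y + (a : ℝ) ^ i)))) := by
          gcongr
      _ = (4 * P ^ 2) ^ i * G * W.card * (Y + (a : ℝ) ^ i) * (a : ℝ) ^ i := by
          rw [show (4 : ℝ) = 2 * 2 by norm_num, mul_pow, mul_pow, mul_pow]
          ring
      _ ≤ _ := by gcongr
  have hE : 1 ≤ (4 * P ^ 2) ^ (J0 + 1) * G :=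
    one_le_mul_of_one_le_of_one_le (one_le_pow₀ hP4) hG
  have hE0 : 0 ≤ (4 * P ^ 2) ^ (J0 + 1) * G * W.card := by positivity
  refine interp (W ×ˢ W) (uu y κ) (uu_nonneg y κ) (by rw [card_product]; push_cast; rw [sq]) hR
    h.hRY hQ h.hg (by linarith) ha1 h.hk j3 h.hD j2 (j5.trans h.hYg) h.hm
    ((mom j (by omega)).trans ?_) ((mom (j + 1) le_rfl).trans ?_)
  · nlinarith [mul_le_mul_of_nonneg_left j1 hE0]
  · nlinarith [mul_le_mul_of_nonneg_left j2 hE0]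

end Pool.Agent.Lib.MP_ecd12e_nt.SR
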