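import Pool.Agent.Lib.MP_ecd12e_nt.DH.Defs
import Pool.Agent.Lib.MP_ecd12e_nt.Sch.Swap

/-!
Double zeta sums over indexed families.
-/

set_option autoImplicit false

namespace Pool.Agent.Lib.MP_ecd12e_nt.SR

open Finset Real
open Pool.Agent.Lib.MP_ecd12e_nt.Bar (ei)
open Pool.Agent.Lib.MP_ecd12e_nt.Sch Pool.Agent.Lib.MP_ecd12e_nt.DH

lemma tup_ei (t t' : ℤ) (x : ℝ) :
    ei (((t - t' : ℤ) : ℝ) * x) = ei (t * x) * ei (-(t' * x)) := by
  rw [← Bar.ei_add]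
  congr 1
  push_cast
  ring

/-- The majorant principle. -/
lemma tup_up {ι : Type*} (W : Finset ℤ) (X : Finset ι) (x : ι → ℝ) (c : ι → ℂ)
    (hc : ∀ a ∈ X, ‖c a‖ ≤ 1) :
    ∑ s ∈ W, ∑ s' ∈ W, ‖∑ a ∈ X, c a * ei (((s - s' : ℤ) : ℝ) * x a)‖ ^ 2 ≤
      ∑ a ∈ X, ∑ b ∈ X, ‖rr W (x a - x b)‖ ^ 2 := by
  have h := swap_key W W X c (fun t a => ei (t * x a)) fun t a => ei (-(t * x a))
  simp only [tup_ei]
  refine h.trans (sum_le_sum fun a ha => sum_le_sum fun b hb => ?_)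
  have h2 : ∑ t ∈ W, ei (t * x a) * (starRingEnd ℂ) (ei (t * x b)) = rr W (x a - x b) :=
    sum_congr rfl fun t _ => by
      rw [Bar.conj_ei, ← Bar.ei_add]
      congr 1
      ring
  rw [swap_conj, h2, ← sq]
  exact mul_le_of_le_one_left (sq_nonneg _) (mul_le_one₀ (hc a ha) (norm_nonneg _) (hc b hb))

lemma tup_low {ι : Type*} (W : Finset ℤ) (X : Finset ι) (x : ι → ℝ) :
    ∑ a ∈ X, ∑ b ∈ X, ‖rr W (x a - x b)‖ ^ 2 ≤
      ∑ s ∈ W, ∑ s' ∈ W, ‖∑ a ∈ X, ei (((s - s' : ℤ) : ℝ) * x a)‖ ^ 2 := by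
  have h := swap_key X X W (fun _ => 1) (fun a t => ei (t * x a)) fun a t => ei (-(t * x a))
  have h1 : ∀ a b : ι, rr W (x a - x b) = ∑ t ∈ W, 1 * (ei (t * x a) * ei (-(t * x b))) :=
    fun a b => sum_congr rfl fun t _ => by
      rw [← Bar.ei_add, one_mul]
      congr 1
      ring
  have h2 : ∀ t t' : ℤ, ∑ a ∈ X, ei (t * x a) * (starRingEnd ℂ) (ei (t' * x a)) =
      ∑ a ∈ X, ei (((t - t' : ℤ) : ℝ) * x a) := fun t t' => sum_congr rfl fun a _ => by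
    rw [Bar.conj_ei, tup_ei]
  simp only [swap_conj, h2, norm_one, one_mul] at h
  simp only [h1, one_mul]
  refine h.trans (le_of_eq ?_)
  simp only [sq]

lemma tup_fib1 {ι : Type*} (X : Finset ι) (pr : ι → ℕ) (J : Finset ℕ) (hJ : ∀ a ∈ X, pr a ∈ J)
    {D : ℝ} (hD : ∀ n ∈ J, ((X.filter fun a => pr a = n).card : ℝ) ≤ D) (ψ : ℕ → ℝ)
    (hψ : ∀ n, 0 ≤ ψ n) : ∑ a ∈ X, ψ (pr a) ≤ D * ∑ n ∈ J, ψ n := by
  rw [← sum_fiberwise_of_maps_to hJ, mul_sum]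
  refine sum_le_sum fun n hn => ?_
  rw [sum_congr rfl fun a ha => by rw [(mem_filter.1 ha).2], sum_const, nsmul_eq_mul]
  exact mul_le_mul_of_nonneg_right (hD n hn) (hψ n)

/-- Passing from a family to the set of its values. -/
lemma tup_fib {ι : Type*} (W : Finset ℤ) (X : Finset ι) (pr : ι → ℕ) (J : Finset ℕ)
    (hJ : ∀ a ∈ X, pr a ∈ J) {D : ℝ} (hD0 : 0 ≤ D)
    (hD : ∀ n ∈ J, ((X.filter fun a => pr a = n).card : ℝ) ≤ D) :
    ∑ a ∈ X, ∑ b ∈ X, ‖rr W (Real.log (pr a) - Real.log (pr b))‖ ^ 2 ≤ D ^ 2 * ds W J := by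
  have h1 := tup_fib1 X pr J hJ hD
    (fun n => ∑ b ∈ X, ‖rr W (Real.log n - Real.log (pr b))‖ ^ 2)
    fun n => sum_nonneg fun _ _ => sq_nonneg _
  refine h1.trans ?_
  rw [sq D, mul_assoc]
  refine mul_le_mul_of_nonneg_left ?_ hD0
  rw [ds, mul_sum]
  refine sum_le_sum fun n _ => ?_
  exact tup_fib1 X pr J hJ hD (fun n' => ‖rr W (Real.log n - Real.log n')‖ ^ 2) fun _ => sq_nonneg _

/-- A set of integers that is the image of a part of a family. -/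
lemma tup_inj {ι : Type*} [DecidableEq ι] (W : Finset ℤ) (X : Finset ι) (pr : ι → ℕ) (J : Finset ℕ)
    (f : ℕ → ι) (hf : ∀ n ∈ J, f n ∈ X ∧ pr (f n) = n) :
    ds W J ≤ ∑ s ∈ W, ∑ s' ∈ W, ‖∑ a ∈ X, ei (((s - s' : ℤ) : ℝ) * Real.log (pr a))‖ ^ 2 := by
  refine le_trans ?_ (tup_low W X fun a => Real.log (pr a))
  have hi : Set.InjOn f J := fun n hn n' hn' e => by
    rw [← (hf n hn).2, e, (hf n' hn').2]
  have hs : J.image f ⊆ X := fun a ha => by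
    obtain ⟨n, hn, rfl⟩ := mem_image.1 ha
    exact (hf n hn).1
  calc ds W J = ∑ a ∈ J.image f, ∑ b ∈ J.image f,
        ‖rr W (Real.log (pr a) - Real.log (pr b))‖ ^ 2 := by
        rw [sum_image hi]
        refine sum_congr rfl fun n hn => ?_
        rw [sum_image hi]
        refine sum_congr rfl fun n' hn' => ?_
        rw [(hf n hn).2, (hf n' hn').2]
    _ ≤ ∑ a ∈ J.image f, ∑ b ∈ X, ‖rr W (Real.log (pr a) - Real.log (pr b))‖ ^ 2 :=
        sum_le_sum fun a _ => sum_le_sum_of_subset_of_nonneg hs fun _ _ _ => sq_nonneg _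
    _ ≤ _ := sum_le_sum_of_subset_of_nonneg hs fun _ _ _ => sum_nonneg fun _ _ => sq_nonneg _

/-- Splitting into classes. -/
lemma tup_split {γ : Type*} [DecidableEq γ] (W : Finset ℤ) (J : Finset ℕ) (K : Finset γ)
    (cl : ℕ → γ) (h : ∀ n ∈ J, cl n ∈ K) :
    ds W J ≤ K.card * ∑ κ ∈ K, ds W (J.filter fun n => cl n = κ) := by
  refine (tup_low W J fun n => Real.log n).trans ?_
  have h1 : ∀ κ ∈ K, ∑ s ∈ W, ∑ s' ∈ W, ‖∑ n ∈ J.filter fun n => cl n = κ,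
      ei (((s - s' : ℤ) : ℝ) * Real.log n)‖ ^ 2 ≤ ds W (J.filter fun n => cl n = κ) :=
    fun κ _ => by
      simpa only [one_mul, ds] using tup_up W (J.filter fun n => cl n = κ) (fun n => Real.log n)
        (fun _ => 1) fun _ _ => norm_one.le
  refine le_trans ?_ (mul_le_mul_of_nonneg_left (sum_le_sum h1) (Nat.cast_nonneg _))
  rw [sum_comm (s := K), mul_sum]
  refine sum_le_sum fun s _ => ?_
  rw [sum_comm (s := K), mul_sum]
  refine sum_le_sum fun s' _ => ?_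
  rw [← sum_fiberwise_of_maps_to h]
  exact (pow_le_pow_left₀ (norm_nonneg _) (norm_sum_le _ _) 2).trans sq_sum_le_card_mul_sum_sq

end Pool.Agent.Lib.MP_ecd12e_nt.SR
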